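import Mathlib

/-!
# Hanson's bound `lcm(1, ..., n) ≤ 3 ^ n`
-/

namespace Pool.Agent.Lib.MP_edb5be_nt

open Nat Finset

/-- The divisibility behind Hanson's bound, for one prime. -/
theorem lcm_fact_factorization (n p : ℕ) (hp : p.Prime) :
    p.log n + ((n / 2)!.factorization p + (n / 3)!.factorization p + (n / 7)!.factorization p +
      (n / 43)!.factorization p + (n / 1806)!.factorization p) ≤
      (n !).factorization p + p.log (n / 1806) := by
  have hlog : ∀ m ≤ n, p.log m < p.log n + 1 := fun m hm =>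
    Nat.lt_succ_of_le (Nat.log_mono_right hm)
  rw [factorization_factorial hp (hlog n le_rfl),
    factorization_factorial hp (hlog (n / 2) (Nat.div_le_self _ _)),
    factorization_factorial hp (hlog (n / 3) (Nat.div_le_self _ _)),
    factorization_factorial hp (hlog (n / 7) (Nat.div_le_self _ _)),
    factorization_factorial hp (hlog (n / 43) (Nat.div_le_self _ _)),
    factorization_factorial hp (hlog (n / 1806) (Nat.div_le_self _ _))]
  have hl : ∀ m ≤ n, p.log m = ∑ i ∈ Ico 1 (p.log n + 1), if p ^ i ≤ m then 1 else 0 := by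
    intro m hm
    rw [Finset.sum_boole]
    have : (Ico 1 (p.log n + 1)).filter (fun i => p ^ i ≤ m) = Ico 1 (p.log m + 1) := by
      ext i
      simp only [mem_filter, mem_Ico]
      constructor
      · rintro ⟨⟨h1, h2⟩, h3⟩
        refine ⟨h1, ?_⟩
        have : i ≤ p.log m := Nat.le_log_of_pow_le hp.one_lt h3
        omega
      · rintro ⟨h1, h2⟩
        have hmn := Nat.log_mono_right (b := p) hm
        refine ⟨⟨h1, by omega⟩, ?_⟩
        have hm0 : m ≠ 0 := by
          rintro rfl
          simp at h2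
          omega
        exact Nat.pow_le_of_le_log hm0 (by omega)
    rw [this]
    simp
  have e1 := hl n le_rfl
  have e2 := hl (n / 1806) (Nat.div_le_self _ _)
  have main : (∑ i ∈ Ico 1 (p.log n + 1), if p ^ i ≤ n then 1 else 0) +
      ((∑ i ∈ Ico 1 (p.log n + 1), n / 2 / p ^ i) + (∑ i ∈ Ico 1 (p.log n + 1), n / 3 / p ^ i) +
        (∑ i ∈ Ico 1 (p.log n + 1), n / 7 / p ^ i) + (∑ i ∈ Ico 1 (p.log n + 1), n / 43 / p ^ i) +
        (∑ i ∈ Ico 1 (p.log n + 1), n / 1806 / p ^ i)) ≤
      (∑ i ∈ Ico 1 (p.log n + 1), n / p ^ i) +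
        ∑ i ∈ Ico 1 (p.log n + 1), (if p ^ i ≤ n / 1806 then 1 else 0) := by
    simp only [← Finset.sum_add_distrib]
    apply Finset.sum_le_sum
    intro i hi
    rw [mem_Ico] at hi
    have hpos : 0 < p ^ i := Nat.pow_pos hp.pos
    have hcomm : ∀ a, n / a / p ^ i = n / p ^ i / a := fun a => by
      rw [Nat.div_div_eq_div_mul, Nat.div_div_eq_div_mul, Nat.mul_comm]
    rw [hcomm, hcomm, hcomm, hcomm, hcomm]
    have hM : p ^ i ≤ n := by
      have hn0 : n ≠ 0 := by
        rintro rfl
        simp at hi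
        omega
      exact Nat.pow_le_of_le_log hn0 (by omega)
    have h1 : 1 ≤ n / p ^ i := (Nat.one_le_div_iff hpos).mpr hM
    have h2 : (if p ^ i ≤ n / 1806 then 1 else 0) = (if 1806 ≤ n / p ^ i then 1 else 0) := by
      congr 1
      rw [Nat.le_div_iff_mul_le (by norm_num), Nat.le_div_iff_mul_le hpos, Nat.mul_comm]
    rw [h2, if_pos hM]
    generalize n / p ^ i = M at h1
    split_ifs <;> omega
  rw [← e1, ← e2] at main
  exact main

theorem lcmUpto_mul_dvd (n : ℕ) :
    lcmUpto n * ((n / 2)! * (n / 3)! * (n / 7)! * (n / 43)! * (n / 1806)!) ∣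
      n ! * lcmUpto (n / 1806) := by
  have f0 : ∀ m : ℕ, m ! ≠ 0 := Nat.factorial_ne_zero
  have l0 := lcmUpto_ne_zero
  rw [← factorization_prime_le_iff_dvd (by simp [f0, l0]) (by simp [f0, l0])]
  intro p hp
  have := lcm_fact_factorization n p hp
  rw [Nat.factorization_mul (l0 n) (by simp [f0]), Nat.factorization_mul (f0 n) (l0 _),
    Nat.factorization_mul (by simp [f0]) (f0 _), Nat.factorization_mul (by simp [f0]) (f0 _),
    Nat.factorization_mul (by simp [f0]) (f0 _), Nat.factorization_mul (f0 _) (f0 _)]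
  simp only [Finsupp.add_apply, factorization_lcmUpto _ hp]
  omega

/-- `log n! ≤ (n + 1) log n - n + 1` -/
theorem log_factorial_le (n : ℕ) (hn : 1 ≤ n) :
    Real.log (n ! : ℝ) ≤ (n + 1) * Real.log n - n + 1 := by
  induction n, hn using Nat.le_induction with
  | base => simp
  | succ n hn ih =>
    have hn' : (0 : ℝ) < n := by exact_mod_cast hn
    rw [Nat.factorial_succ]
    push_cast
    rw [Real.log_mul (by positivity) (by exact_mod_cast Nat.factorial_ne_zero n)]
    have h1 : Real.log (n : ℝ) - Real.log (n + 1) ≤ - (1 / (n + 1)) := by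
      rw [← Real.log_div (by positivity) (by positivity)]
      have h2 := Real.log_le_sub_one_of_pos (x := (n : ℝ) / (n + 1)) (by positivity)
      have h3 : (n : ℝ) / (n + 1) - 1 = - (1 / (n + 1)) := by field_simp; ring
      linarith
    have h4 : ((n : ℝ) + 1) * (Real.log (n : ℝ) - Real.log (n + 1)) ≤ -1 := by
      calc ((n : ℝ) + 1) * (Real.log (n : ℝ) - Real.log (n + 1))
          ≤ ((n : ℝ) + 1) * (- (1 / (n + 1))) := by gcongr
        _ = -1 := by field_simp
    nlinarith

/-- `y log y - y - log (y + 1) ≤ log ⌊y⌋!` with `y = n / a`. -/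
theorem le_log_factorial (m : ℕ) : (m : ℝ) * Real.log m - m ≤ Real.log (m ! : ℝ) := by
  induction m with
  | zero => simp
  | succ n ih =>
    rcases Nat.eq_zero_or_pos n with rfl | hn
    · simp
    have hn' : (0 : ℝ) < n := by exact_mod_cast hn
    rw [Nat.factorial_succ]
    push_cast
    rw [Real.log_mul (by positivity) (by exact_mod_cast Nat.factorial_ne_zero n)]
    have h1 : Real.log ((n : ℝ) + 1) - Real.log n ≤ 1 / n := by
      rw [← Real.log_div (by positivity) (by positivity)]
      have h2 := Real.log_le_sub_one_of_pos (x := ((n : ℝ) + 1) / n) (by positivity)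
      have h3 : ((n : ℝ) + 1) / n - 1 = 1 / n := by field_simp; ring
      linarith
    have h4 : (n : ℝ) * (Real.log ((n : ℝ) + 1) - Real.log n) ≤ 1 := by
      calc (n : ℝ) * (Real.log ((n : ℝ) + 1) - Real.log n)
          ≤ (n : ℝ) * (1 / n) := by gcongr
        _ = 1 := by field_simp
    nlinarith

theorem le_log_factorial_div (n a : ℕ) (ha : 1 ≤ a) (han : a ≤ n) :
    (n : ℝ) / a * (Real.log n - Real.log a) - n / a - Real.log (2 * n / a) ≤
      Real.log ((n / a)! : ℝ) := by
  have ha' : (0 : ℝ) < a := by exact_mod_cast ha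
  have hn' : (0 : ℝ) < n := by exact_mod_cast (by omega : 0 < n)
  have han' : (a : ℝ) ≤ n := by exact_mod_cast han
  set m := n / a with hm
  have h1 := le_log_factorial (m + 1)
  rw [Nat.factorial_succ] at h1
  push_cast at h1
  rw [Real.log_mul (by positivity) (by exact_mod_cast Nat.factorial_ne_zero m)] at h1
  set y : ℝ := n / a with hy
  have hy1 : 1 ≤ y := by rw [hy, le_div_iff₀ ha']; linarith
  have hym : y ≤ m + 1 := by
    rw [hy, div_le_iff₀ ha']
    have := Nat.lt_div_mul_add (a := n) (b := a) (by omega)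
    rw [← hm] at this
    have h2 : (n : ℝ) < m * a + a := by exact_mod_cast this
    linarith
  have hmy : (m : ℝ) ≤ y := by
    rw [hy, le_div_iff₀ ha']
    exact_mod_cast Nat.div_mul_le_self n a
  -- monotonicity of y log y - y
  have h3 : y * Real.log y - y ≤ ((m : ℝ) + 1) * Real.log (m + 1) - (m + 1) := by
    have hy0 : 0 < y := by linarith
    have h5 : Real.log y - Real.log (m + 1) ≤ y / (m + 1) - 1 := by
      rw [← Real.log_div (by positivity) (by positivity)]
      exact Real.log_le_sub_one_of_pos (by positivity)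
    have h6 : ((m : ℝ) + 1) * (Real.log y - Real.log (m + 1)) ≤ y - (m + 1) := by
      calc ((m : ℝ) + 1) * (Real.log y - Real.log (m + 1))
          ≤ ((m : ℝ) + 1) * (y / (m + 1) - 1) := by gcongr
        _ = y - (m + 1) := by field_simp
    have h7 : 0 ≤ Real.log y := Real.log_nonneg hy1
    nlinarith
  have h8 : Real.log ((m : ℝ) + 1) ≤ Real.log (2 * n / a) := by
    apply Real.log_le_log (by positivity)
    rw [mul_div_assoc, ← hy]
    linarith
  have h9 : Real.log y = Real.log n - Real.log a := by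
    rw [hy, Real.log_div (by positivity) (by positivity)]
  rw [← h9]
  linarith

theorem log_small_bounds :
    Real.log 2 ≤ 12 / 19 * Real.log 3 ∧ Real.log 7 ≤ 39 / 22 * Real.log 3 ∧
      Real.log 43 ≤ 24 / 7 * Real.log 3 ∧ 1 ≤ Real.log 3 := by
  refine ⟨?_, ?_, ?_, ?_⟩
  · have : (19 : ℝ) * Real.log 2 ≤ 12 * Real.log 3 := by
      have h := Real.log_le_log (x := (2 : ℝ) ^ 19) (y := 3 ^ 12) (by positivity) (by norm_num)
      rw [Real.log_pow, Real.log_pow] at h
      exact_mod_cast h
    linarith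
  · have : (22 : ℝ) * Real.log 7 ≤ 39 * Real.log 3 := by
      have h := Real.log_le_log (x := (7 : ℝ) ^ 22) (y := 3 ^ 39) (by positivity) (by norm_num)
      rw [Real.log_pow, Real.log_pow] at h
      exact_mod_cast h
    linarith
  · have : (7 : ℝ) * Real.log 43 ≤ 24 * Real.log 3 := by
      have h := Real.log_le_log (x := (43 : ℝ) ^ 7) (y := 3 ^ 24) (by positivity) (by norm_num)
      rw [Real.log_pow, Real.log_pow] at h
      exact_mod_cast h
    linarith
  · rw [Real.le_log_iff_exp_le (by norm_num)]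
    have := Real.exp_one_lt_d9
    linarith

theorem log_lcmUpto_step (n : ℕ) (hn : 1806 ≤ n) :
    Real.log (lcmUpto n) ≤ Real.log (lcmUpto (n / 1806)) + 6 * Real.log n + 1 + 5 * Real.log 2
      + n * (Real.log 2 / 2 + Real.log 3 / 3 + Real.log 7 / 7 + Real.log 43 / 43 +
        Real.log 1806 / 1806) := by
  have hn' : (0 : ℝ) < n := by exact_mod_cast (by omega : 0 < n)
  have hdvd := Nat.le_of_dvd (Nat.mul_pos (Nat.factorial_pos _) (lcmUpto_pos _))
    (lcmUpto_mul_dvd n)
  have hreal : (lcmUpto n : ℝ) * (((n / 2)! : ℝ) * ((n / 3)! : ℝ) * ((n / 7)! : ℝ) *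
      ((n / 43)! : ℝ) * ((n / 1806)! : ℝ)) ≤ (n ! : ℝ) * lcmUpto (n / 1806) := by
    exact_mod_cast hdvd
  have f0 : ∀ m : ℕ, (m ! : ℝ) ≠ 0 := fun m => by exact_mod_cast Nat.factorial_ne_zero m
  have l0 : ∀ m : ℕ, (lcmUpto m : ℝ) ≠ 0 := fun m => by exact_mod_cast lcmUpto_ne_zero m
  have l1 : ∀ m : ℕ, (0 : ℝ) < lcmUpto m := fun m => by exact_mod_cast lcmUpto_pos m
  have f1 : ∀ m : ℕ, (0 : ℝ) < (m ! : ℝ) := fun m => by exact_mod_cast Nat.factorial_pos m
  have hlog := Real.log_le_log (by
    have := l1 n; have := f1 (n / 2); have := f1 (n / 3); have := f1 (n / 7)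
    have := f1 (n / 43); have := f1 (n / 1806); positivity) hreal
  rw [Real.log_mul (l0 _) (by simp [f0]), Real.log_mul (by simp [f0]) (f0 _),
    Real.log_mul (by simp [f0]) (f0 _), Real.log_mul (by simp [f0]) (f0 _),
    Real.log_mul (f0 _) (f0 _), Real.log_mul (f0 _) (l0 _)] at hlog
  have h0 := log_factorial_le n (by omega)
  have h2 := le_log_factorial_div n 2 (by norm_num) (by omega)
  have h3 := le_log_factorial_div n 3 (by norm_num) (by omega)
  have h7 := le_log_factorial_div n 7 (by norm_num) (by omega)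
  have h43 := le_log_factorial_div n 43 (by norm_num) (by omega)
  have h1806 := le_log_factorial_div n 1806 (by norm_num) (by omega)
  have hlg : ∀ a : ℝ, 1 ≤ a → Real.log (2 * n / a) ≤ Real.log 2 + Real.log n := by
    intro a ha
    rw [← Real.log_mul (by norm_num) (by positivity)]
    apply Real.log_le_log (by positivity)
    apply div_le_self (by positivity) ha
  have g2 := hlg 2 (by norm_num)
  have g3 := hlg 3 (by norm_num)
  have g7 := hlg 7 (by norm_num)
  have g43 := hlg 43 (by norm_num)
  have g1806 := hlg 1806 (by norm_num)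
  push_cast at h2 h3 h7 h43 h1806
  have key : (n : ℝ) / 2 * (Real.log n - Real.log 2) - n / 2 +
      ((n : ℝ) / 3 * (Real.log n - Real.log 3) - n / 3) +
      ((n : ℝ) / 7 * (Real.log n - Real.log 7) - n / 7) +
      ((n : ℝ) / 43 * (Real.log n - Real.log 43) - n / 43) +
      ((n : ℝ) / 1806 * (Real.log n - Real.log 1806) - n / 1806) =
      n * Real.log n - n - n * (Real.log 2 / 2 + Real.log 3 / 3 + Real.log 7 / 7 +
        Real.log 43 / 43 + Real.log 1806 / 1806) := by ring
  linarith

/-- Kernel-checkable recursion for the least common multiple. -/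
def lcmList : ℕ → ℕ
  | 0 => 1
  | n + 1 => Nat.lcm (n + 1) (lcmList n)

theorem lcmUpto_succ (n : ℕ) : lcmUpto (n + 1) = Nat.lcm (n + 1) (lcmUpto n) := by
  unfold lcmUpto
  rw [← Finset.insert_Icc_right_eq_Icc_add_one (by omega), Finset.lcm_insert]
  rfl

theorem lcmUpto_eq_lcmList (n : ℕ) : lcmUpto n = lcmList n := by
  induction n with
  | zero => rfl
  | succ n ih => rw [lcmUpto_succ, lcmList, ih]

/-- Loop checking `lcm(1..i) ≤ 3^i` for all `i` in a range. -/
def checkLcm : ℕ → ℕ → ℕ → ℕ → Bool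
  | 0, _, _, _ => true
  | fuel + 1, i, l, t =>
      let l' := Nat.lcm (i + 1) l
      let t' := 3 * t
      Nat.ble l' t' && checkLcm fuel (i + 1) l' t'

theorem checkLcm_spec (fuel i : ℕ) (h : checkLcm fuel i (lcmUpto i) (3 ^ i) = true) :
    ∀ j, i < j → j ≤ i + fuel → lcmUpto j ≤ 3 ^ j := by
  induction fuel generalizing i with
  | zero => intro j h1 h2; omega
  | succ fuel ih =>
    rw [checkLcm] at h
    simp only [Bool.and_eq_true, Nat.ble_eq] at h
    obtain ⟨h1, h2⟩ := h
    rw [← lcmUpto_succ] at h1 h2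
    have h3 : 3 * 3 ^ i = 3 ^ (i + 1) := by ring
    rw [h3] at h1 h2
    intro j hj1 hj2
    rcases Nat.lt_or_ge (i + 1) j with h4 | h4
    · exact ih (i + 1) h2 j h4 (by omega)
    · have : j = i + 1 := by omega
      rw [this]; exact h1

theorem lcmUpto_le_small : ∀ n ≤ 8192, lcmUpto n ≤ 3 ^ n := by
  have h : checkLcm 8192 0 1 1 = true := by decide +kernel
  intro n hn
  rcases Nat.eq_zero_or_pos n with rfl | hn0
  · decide
  · exact checkLcm_spec 8192 0 h n hn0 (by omega)

/-- **Hanson's theorem**: `lcm(1, ..., n) ≤ 3 ^ n`. -/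
theorem lcmUpto_le (n : ℕ) : lcmUpto n ≤ 3 ^ n := by
  induction n using Nat.strong_induction_on with
  | _ n ih =>
  rcases Nat.lt_or_ge 8192 n with hn | hn
  swap
  · exact lcmUpto_le_small n hn
  have hn' : (8192 : ℝ) ≤ n := by exact_mod_cast hn.le
  have hstep := log_lcmUpto_step n (by omega)
  have hih := ih (n / 1806) (by omega)
  have h3 : 1 ≤ Real.log 3 := log_small_bounds.2.2.2
  have hlogih : Real.log (lcmUpto (n / 1806)) ≤ n / 1806 * Real.log 3 := by
    have h1 : Real.log (lcmUpto (n / 1806)) ≤ Real.log ((3 : ℝ) ^ (n / 1806)) := by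
      apply Real.log_le_log (by exact_mod_cast lcmUpto_pos _)
      exact_mod_cast hih
    rw [Real.log_pow] at h1
    refine h1.trans ?_
    gcongr
    have := Nat.cast_div_le (α := ℝ) (m := n) (n := 1806)
    exact_mod_cast this
  obtain ⟨b2, b7, b43, -⟩ := log_small_bounds
  have h1806 : Real.log 1806 = Real.log 2 + Real.log 3 + Real.log 7 + Real.log 43 := by
    rw [← Real.log_mul (by norm_num) (by norm_num), ← Real.log_mul (by norm_num) (by norm_num),
      ← Real.log_mul (by norm_num) (by norm_num)]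
    norm_num
  -- bound on log n
  have hlogn : Real.log n ≤ n / 8192 + 13 * Real.log 2 - 1 := by
    have h1 := Real.log_le_sub_one_of_pos (x := (n : ℝ) / 8192) (by positivity)
    rw [Real.log_div (by positivity) (by norm_num)] at h1
    have h2 : Real.log 8192 = 13 * Real.log 2 := by
      rw [show (8192 : ℝ) = 2 ^ 13 by norm_num, Real.log_pow]; norm_num
    rw [h2] at h1
    linarith
  have hgoal : Real.log (lcmUpto n) ≤ n * Real.log 3 := by
    rw [h1806] at hstep
    have hA : Real.log 2 / 2 + Real.log 3 / 3 + Real.log 7 / 7 + Real.log 43 / 43 +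
        (Real.log 2 + Real.log 3 + Real.log 7 + Real.log 43) / 1806 ≤
        (986 / 1000 : ℝ) * Real.log 3 := by linarith
    have hA' : (n : ℝ) * (Real.log 2 / 2 + Real.log 3 / 3 + Real.log 7 / 7 + Real.log 43 / 43 +
        (Real.log 2 + Real.log 3 + Real.log 7 + Real.log 43) / 1806) ≤
        (n : ℝ) * ((986 / 1000 : ℝ) * Real.log 3) := by gcongr
    nlinarith
  have hfin : Real.log (lcmUpto n) ≤ Real.log ((3 : ℝ) ^ n) := by
    rw [Real.log_pow]; exact hgoal
  have := (Real.log_le_log_iff (by exact_mod_cast lcmUpto_pos _) (by positivity)).mp hfin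
  exact_mod_cast this

end Pool.Agent.Lib.MP_edb5be_nt
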