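import Mathlib

/-!
# Polynomial inequalities for the size of the Hermite-Pade integrand
-/

namespace Pool.Agent.Lib.MP_edb5be_nt

theorem up23_0 (x : ℝ) (h1 : 2 ≤ x) (h2 : x ≤ (9/4)) :
    (x - 2) ^ 3 * (x - 3) ^ 4 * (x - 4) ^ 2 ≤ (7/10000) * x ^ 4 := by
  have e : (7/10000) * x ^ 4 - (x - 2) ^ 3 * (x - 3) ^ 4 * (x - 4) ^ 2 =
      (1835008/625) * (x - 2) ^ 0 * ((9/4) - x) ^ 9 +
      (17432576/625) * (x - 2) ^ 1 * ((9/4) - x) ^ 8 +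
      (73572352/625) * (x - 2) ^ 2 * ((9/4) - x) ^ 7 +
      (170809344/625) * (x - 2) ^ 3 * ((9/4) - x) ^ 6 +
      (237650368/625) * (x - 2) ^ 4 * ((9/4) - x) ^ 5 +
      (205514688/625) * (x - 2) ^ 5 * ((9/4) - x) ^ 4 +
      (110553216/625) * (x - 2) ^ 6 * ((9/4) - x) ^ 3 +
      (35642592/625) * (x - 2) ^ 7 * ((9/4) - x) ^ 2 +
      (6247584/625) * (x - 2) ^ 8 * ((9/4) - x) ^ 1 +
      (458703/625) * (x - 2) ^ 9 * ((9/4) - x) ^ 0 := by ring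
  have k1 : 0 ≤ x - 2 := by linarith
  have k2 : 0 ≤ (9/4) - x := by linarith
  have k3 : 0 ≤ (7/10000) * x ^ 4 - (x - 2) ^ 3 * (x - 3) ^ 4 * (x - 4) ^ 2 := by
    rw [e]; positivity
  linarith

theorem up23_1 (x : ℝ) (h1 : (9/4) ≤ x) (h2 : x ≤ (19/8)) :
    (x - 2) ^ 3 * (x - 3) ^ 4 * (x - 4) ^ 2 ≤ (7/10000) * x ^ 4 := by
  have e : (7/10000) * x ^ 4 - (x - 2) ^ 3 * (x - 3) ^ 4 * (x - 4) ^ 2 =
      (234855936/625) * (x - (9/4)) ^ 0 * ((19/8) - x) ^ 9 +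
      (1571173632/625) * (x - (9/4)) ^ 1 * ((19/8) - x) ^ 8 +
      (4393004544/625) * (x - (9/4)) ^ 2 * ((19/8) - x) ^ 7 +
      (6648860928/625) * (x - (9/4)) ^ 3 * ((19/8) - x) ^ 6 +
      (5989839936/625) * (x - (9/4)) ^ 4 * ((19/8) - x) ^ 5 +
      (3574438496/625) * (x - (9/4)) ^ 5 * ((19/8) - x) ^ 4 +
      (1882818912/625) * (x - (9/4)) ^ 6 * ((19/8) - x) ^ 3 +
      (1081868624/625) * (x - (9/4)) ^ 7 * ((19/8) - x) ^ 2 +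
      (461682958/625) * (x - (9/4)) ^ 8 * ((19/8) - x) ^ 1 +
      (85859981/625) * (x - (9/4)) ^ 9 * ((19/8) - x) ^ 0 := by ring
  have k1 : 0 ≤ x - (9/4) := by linarith
  have k2 : 0 ≤ (19/8) - x := by linarith
  have k3 : 0 ≤ (7/10000) * x ^ 4 - (x - 2) ^ 3 * (x - 3) ^ 4 * (x - 4) ^ 2 := by
    rw [e]; positivity
  linarith

theorem up23_2 (x : ℝ) (h1 : (19/8) ≤ x) (h2 : x ≤ (5/2)) :
    (x - 2) ^ 3 * (x - 3) ^ 4 * (x - 4) ^ 2 ≤ (7/10000) * x ^ 4 := by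
  have e : (7/10000) * x ^ 4 - (x - 2) ^ 3 * (x - 3) ^ 4 * (x - 4) ^ 2 =
      (85859981/625) * (x - (19/8)) ^ 0 * ((5/2) - x) ^ 9 +
      (43351868/25) * (x - (19/8)) ^ 1 * ((5/2) - x) ^ 8 +
      (1211755712/125) * (x - (19/8)) ^ 2 * ((5/2) - x) ^ 7 +
      (3850551552/125) * (x - (19/8)) ^ 3 * ((5/2) - x) ^ 6 +
      (7623466496/125) * (x - (19/8)) ^ 4 * ((5/2) - x) ^ 5 +
      (48811155456/625) * (x - (19/8)) ^ 5 * ((5/2) - x) ^ 4 +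
      (8110096384/125) * (x - (19/8)) ^ 6 * ((5/2) - x) ^ 3 +
      (845807616/25) * (x - (19/8)) ^ 7 * ((5/2) - x) ^ 2 +
      (50397184/5) * (x - (19/8)) ^ 8 * ((5/2) - x) ^ 1 +
      1310720 * (x - (19/8)) ^ 9 * ((5/2) - x) ^ 0 := by ring
  have k1 : 0 ≤ x - (19/8) := by linarith
  have k2 : 0 ≤ (5/2) - x := by linarith
  have k3 : 0 ≤ (7/10000) * x ^ 4 - (x - 2) ^ 3 * (x - 3) ^ 4 * (x - 4) ^ 2 := by
    rw [e]; positivity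
  linarith

theorem up23_3 (x : ℝ) (h1 : (5/2) ≤ x) (h2 : x ≤ 3) :
    (x - 2) ^ 3 * (x - 3) ^ 4 * (x - 4) ^ 2 ≤ (7/10000) * x ^ 4 := by
  have e : (7/10000) * x ^ 4 - (x - 2) ^ 3 * (x - 3) ^ 4 * (x - 4) ^ 2 =
      5 * (x - (5/2)) ^ 0 * (3 - x) ^ 9 +
      (356/5) * (x - (5/2)) ^ 1 * (3 - x) ^ 8 +
      (10324/25) * (x - (5/2)) ^ 2 * (3 - x) ^ 7 +
      (159196/125) * (x - (5/2)) ^ 3 * (3 - x) ^ 6 +
      (1450294/625) * (x - (5/2)) ^ 4 * (3 - x) ^ 5 +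
      (330054/125) * (x - (5/2)) ^ 5 * (3 - x) ^ 4 +
      (241248/125) * (x - (5/2)) ^ 6 * (3 - x) ^ 3 +
      (111888/125) * (x - (5/2)) ^ 7 * (3 - x) ^ 2 +
      (6048/25) * (x - (5/2)) ^ 8 * (3 - x) ^ 1 +
      (18144/625) * (x - (5/2)) ^ 9 * (3 - x) ^ 0 := by ring
  have k1 : 0 ≤ x - (5/2) := by linarith
  have k2 : 0 ≤ 3 - x := by linarith
  have k3 : 0 ≤ (7/10000) * x ^ 4 - (x - 2) ^ 3 * (x - 3) ^ 4 * (x - 4) ^ 2 := by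
    rw [e]; positivity
  linarith

theorem up34_0 (x : ℝ) (h1 : 3 ≤ x) (h2 : x ≤ (7/2)) :
    (x - 2) ^ 3 * (x - 3) ^ 4 * (x - 4) ^ 2 ≤ (29/50000) * x ^ 4 := by
  have e : (29/50000) * x ^ 4 - (x - 2) ^ 3 * (x - 3) ^ 4 * (x - 4) ^ 2 =
      (75168/3125) * (x - 3) ^ 0 * ((7/2) - x) ^ 9 +
      (726624/3125) * (x - 3) ^ 1 * ((7/2) - x) ^ 8 +
      (3119472/3125) * (x - 3) ^ 2 * ((7/2) - x) ^ 7 +
      (7806336/3125) * (x - 3) ^ 3 * ((7/2) - x) ^ 6 +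
      (12448938/3125) * (x - 3) ^ 4 * ((7/2) - x) ^ 5 +
      (12888658/3125) * (x - 3) ^ 5 * ((7/2) - x) ^ 4 +
      (8437284/3125) * (x - 3) ^ 6 * ((7/2) - x) ^ 3 +
      (3268732/3125) * (x - 3) ^ 7 * ((7/2) - x) ^ 2 +
      (667496/3125) * (x - 3) ^ 8 * ((7/2) - x) ^ 1 +
      (54883/3125) * (x - 3) ^ 9 * ((7/2) - x) ^ 0 := by ring
  have k1 : 0 ≤ x - 3 := by linarith
  have k2 : 0 ≤ (7/2) - x := by linarith
  have k3 : 0 ≤ (29/50000) * x ^ 4 - (x - 2) ^ 3 * (x - 3) ^ 4 * (x - 4) ^ 2 := by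
    rw [e]; positivity
  linarith

theorem up34_1 (x : ℝ) (h1 : (7/2) ≤ x) (h2 : x ≤ (29/8)) :
    (x - 2) ^ 3 * (x - 3) ^ 4 * (x - 4) ^ 2 ≤ (29/50000) * x ^ 4 := by
  have e : (29/50000) * x ^ 4 - (x - 2) ^ 3 * (x - 3) ^ 4 * (x - 4) ^ 2 =
      (14387249152/3125) * (x - (7/2)) ^ 0 * ((29/8) - x) ^ 9 +
      (118111535104/3125) * (x - (7/2)) ^ 1 * ((29/8) - x) ^ 8 +
      (425387491328/3125) * (x - (7/2)) ^ 2 * ((29/8) - x) ^ 7 +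
      (880609837056/3125) * (x - (7/2)) ^ 3 * ((29/8) - x) ^ 6 +
      (1152428736512/3125) * (x - (7/2)) ^ 4 * ((29/8) - x) ^ 5 +
      (986552259072/3125) * (x - (7/2)) ^ 5 * ((29/8) - x) ^ 4 +
      (551259652864/3125) * (x - (7/2)) ^ 6 * ((29/8) - x) ^ 3 +
      (193558317888/3125) * (x - (7/2)) ^ 7 * ((29/8) - x) ^ 2 +
      (38756514916/3125) * (x - (7/2)) ^ 8 * ((29/8) - x) ^ 1 +
      (3387692527/3125) * (x - (7/2)) ^ 9 * ((29/8) - x) ^ 0 := by ring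
  have k1 : 0 ≤ x - (7/2) := by linarith
  have k2 : 0 ≤ (29/8) - x := by linarith
  have k3 : 0 ≤ (29/50000) * x ^ 4 - (x - 2) ^ 3 * (x - 3) ^ 4 * (x - 4) ^ 2 := by
    rw [e]; positivity
  linarith

theorem up34_2 (x : ℝ) (h1 : (29/8) ≤ x) (h2 : x ≤ (15/4)) :
    (x - 2) ^ 3 * (x - 3) ^ 4 * (x - 4) ^ 2 ≤ (29/50000) * x ^ 4 := by
  have e : (29/50000) * x ^ 4 - (x - 2) ^ 3 * (x - 3) ^ 4 * (x - 4) ^ 2 =
      (3387692527/3125) * (x - (29/8)) ^ 0 * ((15/4) - x) ^ 9 +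
      (4444390114/625) * (x - (29/8)) ^ 1 * ((15/4) - x) ^ 8 +
      (12256360624/625) * (x - (29/8)) ^ 2 * ((15/4) - x) ^ 7 +
      (18871301024/625) * (x - (29/8)) ^ 3 * ((15/4) - x) ^ 6 +
      (19400915872/625) * (x - (29/8)) ^ 4 * ((15/4) - x) ^ 5 +
      (85723253952/3125) * (x - (29/8)) ^ 5 * ((15/4) - x) ^ 4 +
      (14988832512/625) * (x - (29/8)) ^ 6 * ((15/4) - x) ^ 3 +
      (2073917952/125) * (x - (29/8)) ^ 7 * ((15/4) - x) ^ 2 +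
      (169489152/25) * (x - (29/8)) ^ 8 * ((15/4) - x) ^ 1 +
      (5847552/5) * (x - (29/8)) ^ 9 * ((15/4) - x) ^ 0 := by ring
  have k1 : 0 ≤ x - (29/8) := by linarith
  have k2 : 0 ≤ (15/4) - x := by linarith
  have k3 : 0 ≤ (29/50000) * x ^ 4 - (x - 2) ^ 3 * (x - 3) ^ 4 * (x - 4) ^ 2 := by
    rw [e]; positivity
  linarith

theorem up34_3 (x : ℝ) (h1 : (15/4) ≤ x) (h2 : x ≤ 4) :
    (x - 2) ^ 3 * (x - 3) ^ 4 * (x - 4) ^ 2 ≤ (29/50000) * x ^ 4 := by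
  have e : (29/50000) * x ^ 4 - (x - 2) ^ 3 * (x - 3) ^ 4 * (x - 4) ^ 2 =
      (11421/5) * (x - (15/4)) ^ 0 * (4 - x) ^ 9 +
      (879768/25) * (x - (15/4)) ^ 1 * (4 - x) ^ 8 +
      (29264544/125) * (x - (15/4)) ^ 2 * (4 - x) ^ 7 +
      (533891712/625) * (x - (15/4)) ^ 3 * (4 - x) ^ 6 +
      (5878583616/3125) * (x - (15/4)) ^ 4 * (4 - x) ^ 5 +
      (1626691136/625) * (x - (15/4)) ^ 5 * (4 - x) ^ 4 +
      (1416343552/625) * (x - (15/4)) ^ 6 * (4 - x) ^ 3 +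
      (745766912/625) * (x - (15/4)) ^ 7 * (4 - x) ^ 2 +
      (212860928/625) * (x - (15/4)) ^ 8 * (4 - x) ^ 1 +
      (121634816/3125) * (x - (15/4)) ^ 9 * (4 - x) ^ 0 := by ring
  have k1 : 0 ≤ x - (15/4) := by linarith
  have k2 : 0 ≤ 4 - x := by linarith
  have k3 : 0 ≤ (29/50000) * x ^ 4 - (x - 2) ^ 3 * (x - 3) ^ 4 * (x - 4) ^ 2 := by
    rw [e]; positivity
  linarith

theorem lo23 (x : ℝ) (h1 : (23/10) ≤ x) (h2 : x ≤ (119/50)) :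
    (33/50000) * x ^ 4 ≤ (x - 2) ^ 3 * (x - 3) ^ 4 * (x - 4) ^ 2 := by
  have e : (x - 2) ^ 3 * (x - 3) ^ 4 * (x - 4) ^ 2 - (33/50000) * x ^ 4 =
      (518548828125/262144) * (x - (23/10)) ^ 0 * ((119/50) - x) ^ 9 +
      (8749878515625/262144) * (x - (23/10)) ^ 1 * ((119/50) - x) ^ 8 +
      (11815345078125/65536) * (x - (23/10)) ^ 2 * ((119/50) - x) ^ 7 +
      (32217172328125/65536) * (x - (23/10)) ^ 3 * ((119/50) - x) ^ 6 +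
      (102787177721875/131072) * (x - (23/10)) ^ 4 * ((119/50) - x) ^ 5 +
      (100917269079375/131072) * (x - (23/10)) ^ 5 * ((119/50) - x) ^ 4 +
      (30312858829625/65536) * (x - (23/10)) ^ 6 * ((119/50) - x) ^ 3 +
      (10405212232225/65536) * (x - (23/10)) ^ 7 * ((119/50) - x) ^ 2 +
      (6668312310885/262144) * (x - (23/10)) ^ 8 * ((119/50) - x) ^ 1 +
      (200077560129/262144) * (x - (23/10)) ^ 9 * ((119/50) - x) ^ 0 := by ring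
  have k1 : 0 ≤ x - (23/10) := by linarith
  have k2 : 0 ≤ (119/50) - x := by linarith
  have k3 : 0 ≤ (x - 2) ^ 3 * (x - 3) ^ 4 * (x - 4) ^ 2 - (33/50000) * x ^ 4 := by
    rw [e]; positivity
  linarith


theorem base_le_23 (x : ℝ) (h1 : 2 ≤ x) (h2 : x ≤ 3) :
    (x - 2) ^ 3 * (x - 3) ^ 4 * (x - 4) ^ 2 ≤ (7 / 10000) * x ^ 4 := by
  rcases le_total x (9 / 4) with h | h
  · exact up23_0 x h1 h
  rcases le_total x (19 / 8) with h' | h'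
  · exact up23_1 x h h'
  rcases le_total x (5 / 2) with h'' | h''
  · exact up23_2 x h' h''
  · exact up23_3 x h'' h2

theorem base_le_34 (x : ℝ) (h1 : 3 ≤ x) (h2 : x ≤ 4) :
    (x - 2) ^ 3 * (x - 3) ^ 4 * (x - 4) ^ 2 ≤ (29 / 50000) * x ^ 4 := by
  rcases le_total x (7 / 2) with h | h
  · exact up34_0 x h1 h
  rcases le_total x (29 / 8) with h' | h'
  · exact up34_1 x h h'
  rcases le_total x (15 / 4) with h'' | h''
  · exact up34_2 x h' h''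
  · exact up34_3 x h'' h2

end Pool.Agent.Lib.MP_edb5be_nt
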