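import Mathlib
import Pool.Agent.Lib.MP_edb5be_nt.LcmBound
import Pool.Agent.Lib.MP_edb5be_nt.PadeBounds

/-!
# Simultaneous rational approximations to `log (3/2)` and `log (4/3)`

They come from the integrals of `((x-2)^3 (x-3)^4 (x-4)^2 / x^4)^n / x`
over `[2, 3]` and `[3, 4]`.
-/

namespace Pool.Agent.Lib.MP_edb5be_nt

open Polynomial Finset

/-- The base polynomial. -/
noncomputable def Bp : ℤ[X] := (X - C 2) ^ 3 * (X - C 3) ^ 4 * (X - C 4) ^ 2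

theorem Bp_monic : Bp.Monic := by
  unfold Bp
  exact (((monic_X_sub_C _).pow _).mul ((monic_X_sub_C _).pow _)).mul ((monic_X_sub_C _).pow _)

theorem Bp_natDegree : Bp.natDegree = 9 := by
  unfold Bp
  rw [Monic.natDegree_mul (((monic_X_sub_C _).pow _).mul ((monic_X_sub_C _).pow _))
      ((monic_X_sub_C _).pow _),
    Monic.natDegree_mul ((monic_X_sub_C _).pow _) ((monic_X_sub_C _).pow _),
    natDegree_pow, natDegree_pow, natDegree_pow, natDegree_X_sub_C, natDegree_X_sub_C,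
    natDegree_X_sub_C]

theorem Bp_pow_natDegree (n : ℕ) : (Bp ^ n).natDegree = 9 * n := by
  rw [natDegree_pow, Bp_natDegree, Nat.mul_comm]

/-- coefficients of the `n`-th power of the base polynomial -/
noncomputable def cf (n j : ℕ) : ℤ := (Bp ^ n).coeff j

theorem sum_cf (n : ℕ) (x : ℝ) :
    ∑ j ∈ range (9 * n + 1), (cf n j : ℝ) * x ^ j =
      ((x - 2) ^ 3 * (x - 3) ^ 4 * (x - 4) ^ 2) ^ n := by
  have h : ((Bp ^ n).map (Int.castRingHom ℝ)).eval x =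
      ((x - 2) ^ 3 * (x - 3) ^ 4 * (x - 4) ^ 2) ^ n := by
    simp [Bp]
  rw [← h, eval_eq_sum_range' (n := 9 * n + 1)]
  · apply Finset.sum_congr rfl
    intro j _
    rw [coeff_map]
    rfl
  · refine lt_of_le_of_lt (natDegree_map_le) ?_
    rw [Bp_pow_natDegree]
    omega

/-- `e ^ (4 n)` divides `2 ^ n * c_j * e ^ j` for `e = 2, 3, 4`. -/
theorem cf_dvd (n : ℕ) :
    (∀ j, ∃ w : ℤ, 2 ^ n * cf n j * 2 ^ j = 2 ^ (4 * n) * w) ∧
    (∀ j, ∃ w : ℤ, 2 ^ n * cf n j * 3 ^ j = 3 ^ (4 * n) * w) ∧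
    (∀ j, ∃ w : ℤ, 2 ^ n * cf n j * 4 ^ j = 4 ^ (4 * n) * w) := by
  have hcomp : ∀ (e : ℤ) (j : ℕ), ((Bp ^ n).comp (C e * X)).coeff j = cf n j * e ^ j := by
    intro e j
    rw [comp_C_mul_X_coeff]
    rfl
  refine ⟨fun j => ?_, fun j => ?_, fun j => ?_⟩
  · have h : (Bp ^ n).comp (C 2 * X) =
        C (2 ^ (5 * n)) * ((X - 1) ^ 3 * (C 2 * X - C 3) ^ 4 * (X - C 2) ^ 2) ^ n := by
      rw [pow_comp, show (5 * n) = 5 * n from rfl, pow_mul, C_pow, ← mul_pow]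
      congr 1
      simp only [Bp, mul_comp, pow_comp, sub_comp, X_comp, C_comp]
      simp only [show (C (2 ^ 5 : ℤ) : ℤ[X]) = 32 by simp, show (C (2 : ℤ) : ℤ[X]) = 2 from rfl,
        show (C (3 : ℤ) : ℤ[X]) = 3 from rfl, show (C (4 : ℤ) : ℤ[X]) = 4 from rfl]
      ring
    have h2 := hcomp 2 j
    rw [h, coeff_C_mul] at h2
    refine ⟨2 ^ (2 * n) * (((X - 1) ^ 3 * (C 2 * X - C 3) ^ 4 * (X - C 2) ^ 2) ^ n : ℤ[X]).coeff j, ?_⟩
    rw [mul_assoc, ← h2]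
    generalize (((X - 1) ^ 3 * (C 2 * X - C 3) ^ 4 * (X - C 2) ^ 2) ^ n : ℤ[X]).coeff j = t
    ring
  · have h : (Bp ^ n).comp (C 3 * X) =
        C (3 ^ (4 * n)) * ((C 3 * X - C 2) ^ 3 * (X - 1) ^ 4 * (C 3 * X - C 4) ^ 2) ^ n := by
      rw [pow_comp, pow_mul, C_pow, ← mul_pow]
      congr 1
      simp only [Bp, mul_comp, pow_comp, sub_comp, X_comp, C_comp]
      simp only [show (C (3 ^ 4 : ℤ) : ℤ[X]) = 81 by simp, show (C (2 : ℤ) : ℤ[X]) = 2 from rfl,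
        show (C (3 : ℤ) : ℤ[X]) = 3 from rfl, show (C (4 : ℤ) : ℤ[X]) = 4 from rfl]
      ring
    have h2 := hcomp 3 j
    rw [h, coeff_C_mul] at h2
    refine ⟨2 ^ n * (((C 3 * X - C 2) ^ 3 * (X - 1) ^ 4 * (C 3 * X - C 4) ^ 2) ^ n : ℤ[X]).coeff j, ?_⟩
    rw [mul_assoc, ← h2]
    generalize (((C 3 * X - C 2) ^ 3 * (X - 1) ^ 4 * (C 3 * X - C 4) ^ 2) ^ n : ℤ[X]).coeff j = t
    ring
  · have h : (Bp ^ n).comp (C 4 * X) =
        C (2 ^ (7 * n)) * ((C 2 * X - 1) ^ 3 * (C 4 * X - C 3) ^ 4 * (X - 1) ^ 2) ^ n := by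
      rw [pow_comp, pow_mul, C_pow, ← mul_pow]
      congr 1
      simp only [Bp, mul_comp, pow_comp, sub_comp, X_comp, C_comp]
      simp only [show (C (2 ^ 7 : ℤ) : ℤ[X]) = 128 by simp, show (C (2 : ℤ) : ℤ[X]) = 2 from rfl,
        show (C (3 : ℤ) : ℤ[X]) = 3 from rfl, show (C (4 : ℤ) : ℤ[X]) = 4 from rfl]
      ring
    have h2 := hcomp 4 j
    rw [h, coeff_C_mul] at h2
    refine ⟨(((C 2 * X - 1) ^ 3 * (C 4 * X - C 3) ^ 4 * (X - 1) ^ 2) ^ n : ℤ[X]).coeff j, ?_⟩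
    have e4 : (4 : ℤ) ^ (4 * n) = 2 ^ (8 * n) := by
      rw [show (4 : ℤ) = 2 ^ 2 by norm_num, ← pow_mul]
      congr 1
      ring
    rw [mul_assoc, ← h2, e4]
    generalize (((C 2 * X - 1) ^ 3 * (C 4 * X - C 3) ^ 4 * (X - 1) ^ 2) ^ n : ℤ[X]).coeff j = t
    ring

/-- `|c_j| * 2 ^ j ≤ (4^3 5^4 6^2)^n` -/
theorem abs_cf_le (n j : ℕ) : |(cf n j : ℝ)| * 2 ^ j ≤ 1440000 ^ n := by
  -- coefficients of `B(-x)` have constant sign
  set R : ℤ[X] := (X + C 2) ^ 3 * (X + C 3) ^ 4 * (X + C 4) ^ 2 with hR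
  have hneg : (Bp ^ n).comp (C (-1) * X) = C ((-1) ^ n) * R ^ n := by
    rw [pow_comp, C_pow, ← mul_pow]
    congr 1
    simp only [Bp, hR, mul_comp, pow_comp, sub_comp, X_comp, C_comp]
    simp only [show (C (-1 : ℤ) : ℤ[X]) = -1 by simp, show (C (2 : ℤ) : ℤ[X]) = 2 from rfl,
      show (C (3 : ℤ) : ℤ[X]) = 3 from rfl, show (C (4 : ℤ) : ℤ[X]) = 4 from rfl]
    ring
  have h1 : cf n j * (-1) ^ j = (-1) ^ n * (R ^ n).coeff j := by
    have := comp_C_mul_X_coeff (p := Bp ^ n) (r := (-1 : ℤ)) (n := j)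
    rw [hneg, coeff_C_mul] at this
    exact this.symm
  have habs : |cf n j| = |(R ^ n).coeff j| := by
    have := congrArg (fun t : ℤ => |t|) h1
    simpa [abs_mul, abs_pow] using this
  -- nonnegativity of coefficients of `R ^ n`
  have hnn : ∀ i, 0 ≤ (R ^ n).coeff i := by
    have hmap : R ^ n = ((((X + C 2) ^ 3 * (X + C 3) ^ 4 * (X + C 4) ^ 2) ^ n : ℕ[X])).map
        (Nat.castRingHom ℤ) := by
      simp [hR]
    intro i
    rw [hmap, coeff_map]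
    exact Int.natCast_nonneg _
  have heval : ((R ^ n).map (Int.castRingHom ℝ)).eval 2 = (1440000 : ℝ) ^ n := by
    simp [hR]
    norm_num
  rw [eval_eq_sum_range' (n := max (j + 1) ((R ^ n).natDegree + 1))
    (lt_of_le_of_lt natDegree_map_le (by omega))] at heval
  rw [← heval]
  have hle : ((R ^ n).map (Int.castRingHom ℝ)).coeff j * 2 ^ j ≤
      ∑ i ∈ range (max (j + 1) ((R ^ n).natDegree + 1)),
        ((R ^ n).map (Int.castRingHom ℝ)).coeff i * 2 ^ i := by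
    apply single_le_sum (f := fun i => ((R ^ n).map (Int.castRingHom ℝ)).coeff i * 2 ^ i)
    · intro i _
      rw [coeff_map]
      have : (0 : ℝ) ≤ ((R ^ n).coeff i : ℝ) := by exact_mod_cast hnn i
      simp only [eq_intCast]
      positivity
    · rw [mem_range]; omega
  refine le_trans (le_of_eq ?_) hle
  rw [coeff_map, eq_intCast, ← Int.cast_abs, habs, abs_of_nonneg (hnn j)]

end Pool.Agent.Lib.MP_edb5be_nt
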