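import Mathlib
import Pool.Agent.Lib.MP_edb5be_nt.Pade

/-!
# The simultaneous approximations
-/

namespace Pool.Agent.Lib.MP_edb5be_nt

open Finset

/-- A primitive of `((x-2)^3 (x-3)^4 (x-4)^2)^n / x^(4n+1)`. -/
noncomputable def Gf (n : ℕ) (x : ℝ) : ℝ :=
  cf n (4 * n) * Real.log x + ∑ j ∈ (range (9 * n + 1)).erase (4 * n),
    (cf n j : ℝ) * (x ^ ((j : ℤ) - ((4 * n : ℕ) : ℤ)) / (((j : ℤ) - ((4 * n : ℕ) : ℤ) : ℤ) : ℝ))

theorem Gf_hasDerivAt (n : ℕ) {x : ℝ} (hx : 0 < x) :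
    HasDerivAt (Gf n) (((x - 2) ^ 3 * (x - 3) ^ 4 * (x - 4) ^ 2) ^ n / x ^ (4 * n + 1)) x := by
  have hx0 : x ≠ 0 := hx.ne'
  have h1 : HasDerivAt (fun x => (cf n (4 * n) : ℝ) * Real.log x) ((cf n (4 * n) : ℝ) * x⁻¹) x :=
    (Real.hasDerivAt_log hx0).const_mul _
  have h2 : ∀ j ∈ (range (9 * n + 1)).erase (4 * n), HasDerivAt
      (fun x : ℝ => (cf n j : ℝ) * (x ^ ((j : ℤ) - ((4 * n : ℕ) : ℤ)) /
        (((j : ℤ) - ((4 * n : ℕ) : ℤ) : ℤ) : ℝ)))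
      ((cf n j : ℝ) * x ^ ((j : ℤ) - ((4 * n : ℕ) : ℤ) - 1)) x := by
    intro j hj
    have hne : (j : ℤ) - ((4 * n : ℕ) : ℤ) ≠ 0 := by
      have := ne_of_mem_erase hj
      intro h
      apply this
      omega
    have h3 := ((hasDerivAt_zpow ((j : ℤ) - ((4 * n : ℕ) : ℤ)) x (Or.inl hx0)).div_const
      (((j : ℤ) - ((4 * n : ℕ) : ℤ) : ℤ) : ℝ)).const_mul (cf n j : ℝ)
    have hne' : (((j : ℤ) - ((4 * n : ℕ) : ℤ) : ℤ) : ℝ) ≠ 0 := by exact_mod_cast hne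
    have e : (cf n j : ℝ) * ((((j : ℤ) - ((4 * n : ℕ) : ℤ) : ℤ) : ℝ) *
        x ^ ((j : ℤ) - ((4 * n : ℕ) : ℤ) - 1) / (((j : ℤ) - ((4 * n : ℕ) : ℤ) : ℤ) : ℝ)) =
        (cf n j : ℝ) * x ^ ((j : ℤ) - ((4 * n : ℕ) : ℤ) - 1) := by
      field_simp
    rw [e] at h3
    exact h3
  have h4 := h1.add (HasDerivAt.sum h2)
  have e : ((x - 2) ^ 3 * (x - 3) ^ 4 * (x - 4) ^ 2) ^ n / x ^ (4 * n + 1) =
      (cf n (4 * n) : ℝ) * x⁻¹ + ∑ j ∈ (range (9 * n + 1)).erase (4 * n),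
        (cf n j : ℝ) * x ^ ((j : ℤ) - ((4 * n : ℕ) : ℤ) - 1) := by
    rw [← sum_cf]
    have hmem : 4 * n ∈ range (9 * n + 1) := by rw [mem_range]; omega
    rw [← Finset.add_sum_erase _ _ hmem, add_div, Finset.sum_div]
    congr 1
    · rw [pow_succ]
      field_simp
    · apply Finset.sum_congr rfl
      intro j _
      rw [zpow_sub₀ hx0, zpow_sub₀ hx0, zpow_natCast, zpow_natCast, zpow_one, pow_succ]
      field_simp
  have h5 : Gf n = (fun x => (cf n (4 * n) : ℝ) * Real.log x) +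
      ∑ j ∈ (range (9 * n + 1)).erase (4 * n), fun x : ℝ =>
        (cf n j : ℝ) * (x ^ ((j : ℤ) - ((4 * n : ℕ) : ℤ)) /
          (((j : ℤ) - ((4 * n : ℕ) : ℤ) : ℤ) : ℝ)) := by
    funext y
    rw [Pi.add_apply, Finset.sum_apply]
    rfl
  rw [e, h5]
  exact h4

/-- The rational part of `Gf n e`. -/
noncomputable def Ff (n e : ℕ) : ℝ :=
  ∑ j ∈ (range (9 * n + 1)).erase (4 * n),
    (cf n j : ℝ) * ((e : ℝ) ^ ((j : ℤ) - ((4 * n : ℕ) : ℤ)) /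
      (((j : ℤ) - ((4 * n : ℕ) : ℤ) : ℤ) : ℝ))

theorem Gf_eq (n e : ℕ) : Gf n e = cf n (4 * n) * Real.log e + Ff n e := rfl

/-- The common denominator. -/
def Den (n : ℕ) : ℕ := 2 ^ n * Nat.lcmUpto (5 * n)

theorem Den_pos (n : ℕ) : 0 < Den n := Nat.mul_pos (by positivity) (Nat.lcmUpto_pos _)

theorem Den_le (n : ℕ) : (Den n : ℝ) ≤ 486 ^ n := by
  have h := lcmUpto_le (5 * n)
  have h2 : Den n ≤ 2 ^ n * 3 ^ (5 * n) := Nat.mul_le_mul_left _ h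
  have h3 : 2 ^ n * 3 ^ (5 * n) = 486 ^ n := by
    rw [pow_mul, ← mul_pow]
    norm_num
  rw [h3] at h2
  exact_mod_cast h2

theorem Ff_int (n e : ℕ) (he : e = 2 ∨ e = 3 ∨ e = 4) : ∃ A : ℤ, (Den n : ℝ) * Ff n e = A := by
  have he0 : (e : ℝ) ≠ 0 := by
    rcases he with rfl | rfl | rfl <;> norm_num
  have hw : ∀ j, ∃ w : ℤ, 2 ^ n * cf n j * (e : ℤ) ^ j = (e : ℤ) ^ (4 * n) * w := by
    obtain ⟨h2, h3, h4⟩ := cf_dvd n
    rcases he with rfl | rfl | rfl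
    · exact h2
    · exact h3
    · exact h4
  choose w hw using hw
  have hterm : ∀ j ∈ (range (9 * n + 1)).erase (4 * n), ∃ A : ℤ,
      (Den n : ℝ) * ((cf n j : ℝ) * ((e : ℝ) ^ ((j : ℤ) - ((4 * n : ℕ) : ℤ)) /
      (((j : ℤ) - ((4 * n : ℕ) : ℤ) : ℤ) : ℝ))) = A := by
    intro j hj
    rw [mem_erase, mem_range] at hj
    have hne : (j : ℤ) - ((4 * n : ℕ) : ℤ) ≠ 0 := by
      intro h
      apply hj.1
      omega
    have hdvd : ((j : ℤ) - ((4 * n : ℕ) : ℤ)) ∣ (Nat.lcmUpto (5 * n) : ℤ) := by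
      rw [← Int.natAbs_dvd, Int.natCast_dvd_natCast]
      have h1 : 1 ≤ ((j : ℤ) - ((4 * n : ℕ) : ℤ)).natAbs := by omega
      have h2 : ((j : ℤ) - ((4 * n : ℕ) : ℤ)).natAbs ≤ 5 * n := by omega
      exact Finset.dvd_lcm (f := id) (Finset.mem_Icc.mpr ⟨h1, h2⟩)
    obtain ⟨k, hk⟩ := hdvd
    refine ⟨w j * k, ?_⟩
    have hne' : (((j : ℤ) - ((4 * n : ℕ) : ℤ) : ℤ) : ℝ) ≠ 0 := by exact_mod_cast hne
    have hkr : (Nat.lcmUpto (5 * n) : ℝ) = (((j : ℤ) - ((4 * n : ℕ) : ℤ) : ℤ) : ℝ) * k := by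
      exact_mod_cast hk
    have hwr : (2 : ℝ) ^ n * cf n j * (e : ℝ) ^ j = (e : ℝ) ^ (4 * n) * w j := by
      exact_mod_cast hw j
    rw [Den, Nat.cast_mul, Nat.cast_pow, Nat.cast_ofNat, Int.cast_mul]
    rw [hkr, zpow_sub₀ he0, zpow_natCast, zpow_natCast]
    generalize (((j : ℤ) - ((4 * n : ℕ) : ℤ) : ℤ) : ℝ) = d at hne'
    have hpow : (e : ℝ) ^ (4 * n) ≠ 0 := pow_ne_zero _ he0
    have e1 : (2 : ℝ) ^ n * (d * k) * ((cf n j : ℝ) * ((e : ℝ) ^ j / (e : ℝ) ^ (4 * n) / d)) =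
        ((2 : ℝ) ^ n * cf n j * (e : ℝ) ^ j) / (e : ℝ) ^ (4 * n) * k := by
      field_simp
    rw [e1, hwr]
    field_simp
  choose! A hA using hterm
  refine ⟨∑ j ∈ (range (9 * n + 1)).erase (4 * n), A j, ?_⟩
  rw [Ff, mul_sum, Int.cast_sum]
  exact Finset.sum_congr rfl hA

/-- the integrand -/
theorem integrand_bounds (n : ℕ) (x : ℝ) :
    (2 ≤ x → x ≤ 3 → 0 ≤ ((x - 2) ^ 3 * (x - 3) ^ 4 * (x - 4) ^ 2) ^ n / x ^ (4 * n + 1) ∧
      ((x - 2) ^ 3 * (x - 3) ^ 4 * (x - 4) ^ 2) ^ n / x ^ (4 * n + 1) ≤ (7 / 10000) ^ n / 2) ∧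
    (3 ≤ x → x ≤ 4 → 0 ≤ ((x - 2) ^ 3 * (x - 3) ^ 4 * (x - 4) ^ 2) ^ n / x ^ (4 * n + 1) ∧
      ((x - 2) ^ 3 * (x - 3) ^ 4 * (x - 4) ^ 2) ^ n / x ^ (4 * n + 1) ≤ (29 / 50000) ^ n / 3) ∧
    (23 / 10 ≤ x → x ≤ 119 / 50 → (33 / 50000) ^ n / 3 ≤
      ((x - 2) ^ 3 * (x - 3) ^ 4 * (x - 4) ^ 2) ^ n / x ^ (4 * n + 1)) := by
  refine ⟨fun h1 h2 => ?_, fun h1 h2 => ?_, fun h1 h2 => ?_⟩
  · have h0 : 0 ≤ (x - 2) ^ 3 * (x - 3) ^ 4 * (x - 4) ^ 2 := by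
      have : 0 ≤ x - 2 := by linarith
      positivity
    have hx : 0 < x := by linarith
    refine ⟨by positivity, ?_⟩
    rw [pow_succ x (4 * n), pow_mul x 4 n, ← div_div, ← div_pow]
    have h3 : (x - 2) ^ 3 * (x - 3) ^ 4 * (x - 4) ^ 2 / x ^ 4 ≤ 7 / 10000 := by
      rw [div_le_iff₀ (by positivity)]
      exact base_le_23 x h1 h2
    gcongr
  · have h0 : 0 ≤ (x - 2) ^ 3 * (x - 3) ^ 4 * (x - 4) ^ 2 := by
      have : 0 ≤ x - 2 := by linarith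
      positivity
    have hx : 0 < x := by linarith
    refine ⟨by positivity, ?_⟩
    rw [pow_succ x (4 * n), pow_mul x 4 n, ← div_div, ← div_pow]
    have h3 : (x - 2) ^ 3 * (x - 3) ^ 4 * (x - 4) ^ 2 / x ^ 4 ≤ 29 / 50000 := by
      rw [div_le_iff₀ (by positivity)]
      exact base_le_34 x h1 h2
    gcongr
  · have hx : 0 < x := by linarith
    rw [pow_succ x (4 * n), pow_mul x 4 n, ← div_div, ← div_pow]
    have h3 : 33 / 50000 ≤ (x - 2) ^ 3 * (x - 3) ^ 4 * (x - 4) ^ 2 / x ^ 4 := by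
      rw [le_div_iff₀ (by positivity)]
      exact lo23 x h1 h2
    gcongr
    linarith

theorem Gf_mvt (n : ℕ) {a b : ℝ} (ha : 0 < a) (hab : a < b) : ∃ c, a < c ∧ c < b ∧
    Gf n b - Gf n a = ((c - 2) ^ 3 * (c - 3) ^ 4 * (c - 4) ^ 2) ^ n / c ^ (4 * n + 1) * (b - a) := by
  obtain ⟨c, hc, h⟩ := exists_hasDerivAt_eq_slope (Gf n)
    (fun x => ((x - 2) ^ 3 * (x - 3) ^ 4 * (x - 4) ^ 2) ^ n / x ^ (4 * n + 1)) hab
    (fun x hx => (Gf_hasDerivAt n (by linarith [hx.1])).continuousAt.continuousWithinAt)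
    (fun x hx => Gf_hasDerivAt n (by linarith [hx.1]))
  refine ⟨c, hc.1, hc.2, ?_⟩
  have hba : b - a ≠ 0 := by linarith
  rw [h]
  field_simp

/-- The two integrals and their arithmetic. -/
theorem approx (n : ℕ) : ∃ (q Z1 Z2 : ℤ) (I1 I2 : ℝ),
    |(q : ℝ)| ≤ 90000 ^ n ∧
    (2 / 75) * (33 / 50000) ^ n ≤ I1 ∧ I1 ≤ (7 / 10000) ^ n / 2 ∧
    0 ≤ I2 ∧ I2 ≤ (29 / 50000) ^ n / 3 ∧
    (Den n : ℝ) * I1 = Den n * q * (Real.log 3 - Real.log 2) + Z1 ∧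
    (Den n : ℝ) * I2 = Den n * q * (2 * Real.log 2 - Real.log 3) + Z2 := by
  obtain ⟨A2, hA2⟩ := Ff_int n 2 (by simp)
  obtain ⟨A3, hA3⟩ := Ff_int n 3 (by simp)
  obtain ⟨A4, hA4⟩ := Ff_int n 4 (by simp)
  refine ⟨cf n (4 * n), A3 - A2, A4 - A3, Gf n 3 - Gf n 2, Gf n 4 - Gf n 3, ?_, ?_, ?_, ?_, ?_,
    ?_, ?_⟩
  · have h := abs_cf_le n (4 * n)
    rw [pow_mul] at h
    have h2 : (1440000 : ℝ) ^ n = 90000 ^ n * (2 ^ 4) ^ n := by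
      rw [← mul_pow]; norm_num
    rw [h2] at h
    exact le_of_mul_le_mul_right h (by positivity)
  · -- lower bound for I1
    obtain ⟨c1, h1a, h1b, h1⟩ := Gf_mvt n (a := 2) (b := 23 / 10) (by norm_num) (by norm_num)
    obtain ⟨c2, h2a, h2b, h2⟩ := Gf_mvt n (a := 23 / 10) (b := 119 / 50) (by norm_num) (by norm_num)
    obtain ⟨c3, h3a, h3b, h3⟩ := Gf_mvt n (a := 119 / 50) (b := 3) (by norm_num) (by norm_num)
    have b1 := ((integrand_bounds n c1).1 (by linarith) (by linarith)).1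
    have b2 := (integrand_bounds n c2).2.2 (by linarith) (by linarith)
    have b3 := ((integrand_bounds n c3).1 (by linarith) (by linarith)).1
    have e1 : 0 ≤ Gf n (23 / 10) - Gf n 2 := by rw [h1]; apply mul_nonneg b1; norm_num
    have e3 : 0 ≤ Gf n 3 - Gf n (119 / 50) := by rw [h3]; apply mul_nonneg b3; norm_num
    have e2 : (2 / 75) * (33 / 50000) ^ n ≤ Gf n (119 / 50) - Gf n (23 / 10) := by
      rw [h2]
      calc (2 / 75 : ℝ) * (33 / 50000) ^ n = (33 / 50000) ^ n / 3 * (119 / 50 - 23 / 10) := by ring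
        _ ≤ _ := by gcongr
    linarith
  · obtain ⟨c, ha, hb, h⟩ := Gf_mvt n (a := 2) (b := 3) (by norm_num) (by norm_num)
    have b := ((integrand_bounds n c).1 (by linarith) (by linarith)).2
    rw [h]
    linarith
  · obtain ⟨c, ha, hb, h⟩ := Gf_mvt n (a := 3) (b := 4) (by norm_num) (by norm_num)
    have b := ((integrand_bounds n c).2.1 (by linarith) (by linarith)).1
    rw [h]
    linarith
  · obtain ⟨c, ha, hb, h⟩ := Gf_mvt n (a := 3) (b := 4) (by norm_num) (by norm_num)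
    have b := ((integrand_bounds n c).2.1 (by linarith) (by linarith)).2
    rw [h]
    linarith
  · have e3 := Gf_eq n 3
    have e2 := Gf_eq n 2
    push_cast at e3 e2
    rw [e3, e2]
    push_cast
    rw [← hA3, ← hA2]
    ring
  · have e4 := Gf_eq n 4
    have e3 := Gf_eq n 3
    push_cast at e3 e4
    rw [e3, e4]
    push_cast
    rw [← hA3, ← hA4]
    have : Real.log 4 = 2 * Real.log 2 := by
      rw [show (4 : ℝ) = 2 ^ 2 by norm_num, Real.log_pow]; norm_num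
    rw [this]
    ring

end Pool.Agent.Lib.MP_edb5be_nt
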