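import Mathlib

/-!
# Numerical enclosures of `log 2` and `log 3` to 35 decimal places
-/

namespace Pool.Agent.Lib.MP_edb5be_nt

open Finset

/-- partial sums of `-log (1 - x)` over the rationals -/
def lsum (x : ℚ) : ℕ → ℚ
  | 0 => 0
  | n + 1 => lsum x n + x ^ (n + 1) / (n + 1)

theorem lsum_cast (x : ℚ) (n : ℕ) :
    ((lsum x n : ℚ) : ℝ) = ∑ i ∈ range n, (x : ℝ) ^ (i + 1) / (i + 1) := by
  induction n with
  | zero => simp [lsum]
  | succ n ih => rw [sum_range_succ, lsum, ← ih]; push_cast; ring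

theorem lsum_quarter :
    (287682072451780927439219005993827431 / 10 ^ 36 : ℚ) ≤ lsum (1 / 4) 60 ∧
    lsum (1 / 4) 60 ≤ (287682072451780927439219005993827432 / 10 ^ 36 : ℚ) := by
  constructor <;> decide +kernel

theorem lsum_ninth :
    (117783035656383454538794109470521705 / 10 ^ 36 : ℚ) ≤ lsum (1 / 9) 38 ∧
    lsum (1 / 9) 38 ≤ (117783035656383454538794109470521706 / 10 ^ 36 : ℚ) := by
  constructor <;> decide +kernel

theorem abs_lsum_add_log_le (x : ℚ) (hx0 : 0 < x) (hx : x < 1) (n : ℕ) :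
    |((lsum x n : ℚ) : ℝ) + Real.log (1 - x)| ≤ ((x ^ (n + 1) / (1 - x) : ℚ) : ℝ) := by
  have hx0' : (0 : ℝ) < x := by exact_mod_cast hx0
  have hx' : (x : ℝ) < 1 := by exact_mod_cast hx
  have h := Real.abs_log_sub_add_sum_range_le (x := (x : ℝ)) (by rw [abs_of_pos hx0']; exact hx') n
  rw [← lsum_cast, abs_of_pos hx0'] at h
  push_cast
  exact h

theorem log_three_quarters :
    (287682072451780927439219005993827430 / 10 ^ 36 : ℝ) ≤ 2 * Real.log 2 - Real.log 3 ∧
    2 * Real.log 2 - Real.log 3 ≤ (287682072451780927439219005993827433 / 10 ^ 36 : ℝ) := by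
  have h := abs_lsum_add_log_le (1 / 4) (by norm_num) (by norm_num) 60
  have e : Real.log (1 - ((1 / 4 : ℚ) : ℝ)) = Real.log 3 - 2 * Real.log 2 := by
    rw [show (1 : ℝ) - ((1 / 4 : ℚ) : ℝ) = 3 / 2 ^ 2 by norm_num, Real.log_div (by norm_num)
      (by norm_num), Real.log_pow]
    norm_num
  rw [e] at h
  have e2 : (((1 / 4 : ℚ) ^ (60 + 1) / (1 - 1 / 4) : ℚ) : ℝ) ≤ 1 / 10 ^ 36 := by norm_num
  have h1 := (abs_le.mp (h.trans e2))
  obtain ⟨h2, h3⟩ := lsum_quarter
  have h2' : (287682072451780927439219005993827431 / 10 ^ 36 : ℝ) ≤ ((lsum (1 / 4) 60 : ℚ) : ℝ) := by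
    have := (Rat.cast_le (K := ℝ)).mpr h2
    push_cast at this ⊢
    exact this
  have h3' : ((lsum (1 / 4) 60 : ℚ) : ℝ) ≤ (287682072451780927439219005993827432 / 10 ^ 36 : ℝ) := by
    have := (Rat.cast_le (K := ℝ)).mpr h3
    push_cast at this ⊢
    exact this
  constructor
  · linarith [h1.1, h1.2]
  · linarith [h1.1, h1.2]

theorem log_eight_ninths :
    (117783035656383454538794109470521704 / 10 ^ 36 : ℝ) ≤ 2 * Real.log 3 - 3 * Real.log 2 ∧
    2 * Real.log 3 - 3 * Real.log 2 ≤ (117783035656383454538794109470521707 / 10 ^ 36 : ℝ) := by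
  have h := abs_lsum_add_log_le (1 / 9) (by norm_num) (by norm_num) 38
  have e : Real.log (1 - ((1 / 9 : ℚ) : ℝ)) = 3 * Real.log 2 - 2 * Real.log 3 := by
    rw [show (1 : ℝ) - ((1 / 9 : ℚ) : ℝ) = 2 ^ 3 / 3 ^ 2 by norm_num, Real.log_div (by norm_num)
      (by norm_num), Real.log_pow, Real.log_pow]
    norm_num
  rw [e] at h
  have e2 : (((1 / 9 : ℚ) ^ (38 + 1) / (1 - 1 / 9) : ℚ) : ℝ) ≤ 1 / 10 ^ 36 := by norm_num
  have h1 := (abs_le.mp (h.trans e2))
  obtain ⟨h2, h3⟩ := lsum_ninth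
  have h2' : (117783035656383454538794109470521705 / 10 ^ 36 : ℝ) ≤ ((lsum (1 / 9) 38 : ℚ) : ℝ) := by
    have := (Rat.cast_le (K := ℝ)).mpr h2
    push_cast at this ⊢
    exact this
  have h3' : ((lsum (1 / 9) 38 : ℚ) : ℝ) ≤ (117783035656383454538794109470521706 / 10 ^ 36 : ℝ) := by
    have := (Rat.cast_le (K := ℝ)).mpr h3
    push_cast at this ⊢
    exact this
  constructor
  · linarith [h1.1, h1.2]
  · linarith [h1.1, h1.2]

/-- `log 2` to 35 decimal places. -/
theorem log_two_bounds :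
    (693147180559945309417232121458176564 / 10 ^ 36 : ℝ) ≤ Real.log 2 ∧
    Real.log 2 ≤ (693147180559945309417232121458176573 / 10 ^ 36 : ℝ) := by
  obtain ⟨h1, h2⟩ := log_three_quarters
  obtain ⟨h3, h4⟩ := log_eight_ninths
  constructor <;> linarith

/-- `log 3` to 35 decimal places. -/
theorem log_three_bounds :
    (1098612288668109691395245236922525698 / 10 ^ 36 : ℝ) ≤ Real.log 3 ∧
    Real.log 3 ≤ (1098612288668109691395245236922525713 / 10 ^ 36 : ℝ) := by
  obtain ⟨h1, h2⟩ := log_three_quarters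
  obtain ⟨h3, h4⟩ := log_eight_ninths
  constructor <;> linarith

end Pool.Agent.Lib.MP_edb5be_nt
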