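import Mathlib
import Pool.Agent.Lib.MP_edb5be_nt.LogNum

/-!
# Continued fraction lower bounds for `|a log 2 - b log 3|` for small `b`
-/

namespace Pool.Agent.Lib.MP_edb5be_nt

/-- Best approximation property between two consecutive convergents. -/
theorem best_approx (L2 L3 : ℝ) (p q p' q' a b : ℤ)
    (hdet : p * q' - p' * q = 1 ∨ p * q' - p' * q = -1)
    (hsign : (p * L2 - q * L3) * (p' * L2 - q' * L3) ≤ 0)
    (hq : 0 < q) (hq' : 0 < q') (hb1 : 0 < b) (hb2 : b < q') :
    |p * L2 - q * L3| ≤ |a * L2 - b * L3| := by
  -- write (a, b) = x (p, q) + y (p', q')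
  obtain ⟨x, y, ha, hb⟩ : ∃ x y : ℤ, a = x * p + y * p' ∧ b = x * q + y * q' := by
    rcases hdet with h | h
    · refine ⟨a * q' - b * p', b * p - a * q, ?_, ?_⟩
      · linear_combination (-a) * h
      · linear_combination (-b) * h
    · refine ⟨-(a * q' - b * p'), -(b * p - a * q), ?_, ?_⟩
      · linear_combination a * h
      · linear_combination b * h
  have hx : x ≠ 0 := by
    rintro rfl
    have h1 : b = y * q' := by linarith
    rcases le_or_gt y 0 with hy | hy
    · have : y * q' ≤ 0 := mul_nonpos_of_nonpos_of_nonneg hy hq'.le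
      omega
    · have : 1 * q' ≤ y * q' := by
        apply mul_le_mul_of_nonneg_right (by omega) hq'.le
      omega
  have hxy : x * y ≤ 0 := by
    by_contra hcon
    push Not at hcon
    rcases pos_and_pos_or_neg_and_neg_of_mul_pos hcon with ⟨h1, h2⟩ | ⟨h1, h2⟩
    · have h3 : 1 * q' ≤ y * q' := mul_le_mul_of_nonneg_right (by omega) hq'.le
      have h4 : 0 < x * q := mul_pos h1 hq
      omega
    · have h3 : y * q' < 0 := mul_neg_of_neg_of_pos h2 hq'
      have h4 : x * q < 0 := mul_neg_of_neg_of_pos h1 hq
      omega
  set A : ℝ := p * L2 - q * L3 with hA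
  set B : ℝ := p' * L2 - q' * L3 with hB
  have hsum : (a : ℝ) * L2 - b * L3 = x * A + y * B := by
    rw [hA, hB, ha, hb]
    push_cast
    ring
  rw [hsum]
  have hxabs : (1 : ℝ) ≤ |(x : ℝ)| := by
    have : 1 ≤ |x| := Int.one_le_abs hx
    exact_mod_cast this
  have hprod : 0 ≤ (x * A) * (y * B) := by
    have h1 : ((x : ℝ) * y) ≤ 0 := by exact_mod_cast hxy
    have h2 : (x * A) * (y * B) = ((x : ℝ) * y) * (A * B) := by ring
    rw [h2]
    exact mul_nonneg_of_nonpos_of_nonpos h1 hsign
  have h3 : |(x : ℝ) * A| ≤ |x * A + y * B| := by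
    apply sq_le_sq.mp
    nlinarith [sq_nonneg ((y : ℝ) * B)]
  calc |A| = 1 * |A| := by ring
    _ ≤ |(x : ℝ)| * |A| := by gcongr
    _ = |(x : ℝ) * A| := (abs_mul _ _).symm
    _ ≤ _ := h3

/-- `true`: `p log 2 - q log 3 ≥ 1/(82 q)`; `false`: `q log 3 - p log 2 ≥ 1/(82 q)`. -/
def lowOK (s : Bool) (p q : ℤ) : Bool :=
  if s then
    decide (10 ^ 36 ≤ 82 * q * (p * 693147180559945309417232121458176564 -
      q * 1098612288668109691395245236922525713))
  else
    decide (10 ^ 36 ≤ 82 * q * (q * 1098612288668109691395245236922525698 -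
      p * 693147180559945309417232121458176573))

theorem lowOK_spec (s : Bool) (p q : ℤ) (hp : 0 < p) (hq : 0 < q) (h : lowOK s p q = true) :
    1 / (82 * q) ≤ (if s then (p * Real.log 2 - q * Real.log 3) else
      (q * Real.log 3 - p * Real.log 2)) := by
  have hp' : (0 : ℝ) < p := by exact_mod_cast hp
  have hq' : (0 : ℝ) < q := by exact_mod_cast hq
  obtain ⟨a1, a2⟩ := log_two_bounds
  obtain ⟨b1, b2⟩ := log_three_bounds
  cases s
  · simp only [lowOK, Bool.false_eq_true, if_false, decide_eq_true_eq] at h ⊢
    have h' : ((10 : ℝ) ^ 36 ≤ 82 * q * (q * 1098612288668109691395245236922525698 -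
      p * 693147180559945309417232121458176573)) := by exact_mod_cast h
    rw [div_le_iff₀ (by positivity)]
    have h1 : (q : ℝ) * (1098612288668109691395245236922525698 / 10 ^ 36) ≤ q * Real.log 3 := by
      gcongr
    have h2 : (p : ℝ) * Real.log 2 ≤ p * (693147180559945309417232121458176573 / 10 ^ 36) := by
      gcongr
    have h3 : (q : ℝ) * (1098612288668109691395245236922525698 / 10 ^ 36) -
      p * (693147180559945309417232121458176573 / 10 ^ 36) ≤ q * Real.log 3 - p * Real.log 2 := by
      linarith
    have h4 : ((q : ℝ) * (1098612288668109691395245236922525698 / 10 ^ 36) -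
      p * (693147180559945309417232121458176573 / 10 ^ 36)) * (82 * q) ≤
        (q * Real.log 3 - p * Real.log 2) * (82 * q) := by gcongr
    refine le_trans ?_ h4
    have h5 : ((q : ℝ) * (1098612288668109691395245236922525698 / 10 ^ 36) -
      p * (693147180559945309417232121458176573 / 10 ^ 36)) * (82 * q) =
      (82 * q * (q * 1098612288668109691395245236922525698 -
      p * 693147180559945309417232121458176573)) / 10 ^ 36 := by ring
    rw [h5, le_div_iff₀ (by positivity)]
    linarith
  · simp only [lowOK, if_true, decide_eq_true_eq] at h ⊢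
    have h' : ((10 : ℝ) ^ 36 ≤ 82 * q * (p * 693147180559945309417232121458176564 -
      q * 1098612288668109691395245236922525713)) := by exact_mod_cast h
    rw [div_le_iff₀ (by positivity)]
    have h1 : (p : ℝ) * (693147180559945309417232121458176564 / 10 ^ 36) ≤ p * Real.log 2 := by
      gcongr
    have h2 : (q : ℝ) * Real.log 3 ≤ q * (1098612288668109691395245236922525713 / 10 ^ 36) := by
      gcongr
    have h3 : (p : ℝ) * (693147180559945309417232121458176564 / 10 ^ 36) -
      q * (1098612288668109691395245236922525713 / 10 ^ 36) ≤ p * Real.log 2 - q * Real.log 3 := by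
      linarith
    have h4 : ((p : ℝ) * (693147180559945309417232121458176564 / 10 ^ 36) -
      q * (1098612288668109691395245236922525713 / 10 ^ 36)) * (82 * q) ≤
        (p * Real.log 2 - q * Real.log 3) * (82 * q) := by gcongr
    refine le_trans ?_ h4
    have h5 : ((p : ℝ) * (693147180559945309417232121458176564 / 10 ^ 36) -
      q * (1098612288668109691395245236922525713 / 10 ^ 36)) * (82 * q) =
      (82 * q * (p * 693147180559945309417232121458176564 -
      q * 1098612288668109691395245236922525713)) / 10 ^ 36 := by ring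
    rw [h5, le_div_iff₀ (by positivity)]
    linarith

/-- check a list of consecutive convergents -/
def checkCF : Bool → List (ℤ × ℤ) → Bool
  | _, [] => true
  | s, [(p, q)] => decide (0 < p) && decide (0 < q) && lowOK s p q
  | s, (p, q) :: (p', q') :: l =>
    decide (0 < p) && decide (0 < q) && lowOK s p q &&
      (decide (p * q' - p' * q = 1) || decide (p * q' - p' * q = -1)) &&
      checkCF (!s) ((p', q') :: l)

theorem checkCF_head (s : Bool) (p q : ℤ) (l : List (ℤ × ℤ)) (h : checkCF s ((p, q) :: l) = true) :
    0 < p ∧ 0 < q ∧ lowOK s p q = true := by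
  cases l with
  | nil => simpa [checkCF, and_assoc] using h
  | cons x l =>
    obtain ⟨p', q'⟩ := x
    simp only [checkCF, Bool.and_eq_true, decide_eq_true_eq] at h
    exact ⟨h.1.1.1.1, h.1.1.1.2, h.1.1.2⟩

theorem checkCF_spec (s : Bool) (p q : ℤ) (l : List (ℤ × ℤ)) (B : ℤ)
    (h : checkCF s ((p, q) :: l) = true)
    (hB : B ≤ (((p, q) :: l).getLast (by simp)).2)
    (a b : ℤ) (hb : q ≤ b) (hb2 : b < B) :
    1 / (82 * b) ≤ |a * Real.log 2 - b * Real.log 3| := by
  induction l generalizing s p q with
  | nil => simp at hB; omega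
  | cons x l ih =>
    obtain ⟨p', q'⟩ := x
    have hh := checkCF_head _ _ _ _ h
    simp only [checkCF, Bool.and_eq_true, decide_eq_true_eq, Bool.or_eq_true] at h
    obtain ⟨⟨⟨⟨hp, hq⟩, hlow⟩, hdet⟩, hrest⟩ := h
    rcases lt_or_ge b q' with hbq | hbq
    · obtain ⟨hp', hq', hlow'⟩ := checkCF_head _ _ _ _ hrest
      have g1 := lowOK_spec _ _ _ hp hq hlow
      have g2 := lowOK_spec _ _ _ hp' hq' hlow'
      have hq0 : (0 : ℝ) < q := by exact_mod_cast hq
      have hq0' : (0 : ℝ) < q' := by exact_mod_cast hq'
      have p1 : (0 : ℝ) < 1 / (82 * q) := by positivity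
      have p2 : (0 : ℝ) < 1 / (82 * q') := by positivity
      have hsign : (p * Real.log 2 - q * Real.log 3) * (p' * Real.log 2 - q' * Real.log 3) ≤ 0 := by
        cases s
        · simp only [Bool.false_eq_true, if_false, Bool.not_false, if_true] at g1 g2
          apply mul_nonpos_of_nonpos_of_nonneg <;> linarith
        · simp only [if_true, Bool.not_true, Bool.false_eq_true, if_false] at g1 g2
          apply mul_nonpos_of_nonneg_of_nonpos <;> linarith
      have hbest := best_approx (Real.log 2) (Real.log 3) p q p' q' a b hdet hsign hq hq'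
        (by omega) hbq
      refine le_trans ?_ hbest
      have hqb : (q : ℝ) ≤ b := by exact_mod_cast hb
      have h3 : 1 / (82 * (b : ℝ)) ≤ 1 / (82 * q) := by gcongr
      refine h3.trans ?_
      cases s
      · simp only [Bool.false_eq_true, if_false] at g1
        rw [abs_sub_comm]
        exact g1.trans (le_abs_self _)
      · simp only [if_true] at g1
        exact g1.trans (le_abs_self _)
    · exact ih (!s) p' q' hrest (by simpa using hB) hbq

/-- Convergents of `log 3 / log 2`. -/
def convs : List (ℤ × ℤ) :=
  [(3, 2), (8, 5), (19, 12), (65, 41), (84, 53), (485, 306), (1054, 665), (24727, 15601),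
    (50508, 31867), (125743, 79335), (176251, 111202), (301994, 190537), (16785921, 10590737),
    (17087915, 10781274), (85137581, 53715833), (272500658, 171928773), (357638239,
    225644606), (630138897, 397573379), (9809721694, 6189245291), (10439860591, 6586818670),
    (103768467013, 65470613321), (217976794617, 137528045312), (1193652440098, 753110839881),
    (8573543875303, 5409303924479), (9767196315401, 6162414764360), (18340740190704,
    11571718688839), (83130157078217, 52449289519716), (683381996816440, 431166034846567),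
    (766512153894657, 483615324366283), (9115015689657667, 5750934602875680)]

/-- `|a log 2 - b log 3| ≥ 1/(82 b)` for `1 ≤ b < 5750934602875680`. -/
theorem cf_bound (a b : ℤ) (hb : 1 ≤ b) (hb2 : b < 5750934602875680) :
    1 / (82 * b) ≤ |a * Real.log 2 - b * Real.log 3| := by
  apply checkCF_spec true 2 1 convs 5750934602875680 (by decide +kernel) (by decide +kernel) a b hb hb2

end Pool.Agent.Lib.MP_edb5be_nt
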