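import Mathlib
import Pool.Agent.Lib.MP_edb5be_nt.Approx
import Pool.Agent.Lib.MP_edb5be_nt.CFBound

/-!
# An effective irrationality measure for `log 3 / log 2`

`|a log 2 - b log 3| ≥ 1 / (20000 b ^ 17)` for all integers `a`, `b` with `b ≥ 1`.
-/

namespace Pool.Agent.Lib.MP_edb5be_nt

open Real

theorem log_ratio_bounds :
    (158 / 100 : ℝ) * Real.log 2 < Real.log 3 ∧ Real.log 3 < (1585 / 1000 : ℝ) * Real.log 2 ∧
    (69 / 100 : ℝ) < Real.log 2 ∧ Real.log 2 < 7 / 10 := by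
  obtain ⟨a1, a2⟩ := log_two_bounds
  obtain ⟨b1, b2⟩ := log_three_bounds
  refine ⟨?_, ?_, ?_, ?_⟩
  · linarith
  · linarith
  · linarith
  · linarith

/-- the key step with a fixed index `n` -/
theorem log_form_step (n : ℕ) (hn : 32 ≤ n) (a b : ℤ) (hb : 100 ≤ b)
    (hbn : (b : ℝ) ≤ (29 / 10) ^ n)
    (hsmall : |a * Real.log 2 - b * Real.log 3| ≤ 1 / 10) :
    (78 / 100) / 43740000 ^ n ≤ |a * Real.log 2 - b * Real.log 3| ∨
    b / 130 * ((33 / 50000) ^ n / 90000 ^ n) ≤ |a * Real.log 2 - b * Real.log 3| := by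
  obtain ⟨q, Z1, Z2, I1, I2, hq, hI1, hI1', hI2, hI2', e1, e2⟩ := approx n
  have hD0 : (0 : ℝ) < Den n := by exact_mod_cast Den_pos n
  have hD := Den_le n
  set L2 := Real.log 2 with hL2
  set L3 := Real.log 3 with hL3
  obtain ⟨r1, r2, r3, r4⟩ := log_ratio_bounds
  set Λ : ℝ := a * L2 - b * L3 with hΛ
  have hb' : (100 : ℝ) ≤ b := by exact_mod_cast hb
  obtain ⟨hs1, hs2⟩ := abs_le.mp hsmall
  -- u = a - 2 b, v = a - b
  have hu1 : (a : ℝ) - 2 * b ≤ - (41 / 100) * b := by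
    have : (a : ℝ) * L2 ≤ (159 / 100 * b) * L2 := by nlinarith
    have := le_of_mul_le_mul_right this (by linarith)
    linarith
  have hu2 : -(42 / 100) * b - 1 ≤ (a : ℝ) - 2 * b := by
    have : (158 / 100 * b - 1) * L2 ≤ (a : ℝ) * L2 := by nlinarith
    have := le_of_mul_le_mul_right this (by linarith)
    linarith
  have hv1 : (a : ℝ) - b ≤ 59 / 100 * b := by linarith
  have hv2 : 0 ≤ (a : ℝ) - b := by linarith
  set u : ℝ := (a : ℝ) - 2 * b with hu
  set v : ℝ := (a : ℝ) - b with hv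
  have hkey : Den n * (u * I1 + v * I2) = Den n * q * Λ + ((a - 2 * b) * Z1 + (a - b) * Z2 : ℤ) := by
    push_cast
    have : Den n * (u * I1 + v * I2) = u * (Den n * I1) + v * (Den n * I2) := by ring
    rw [this, e1, e2, hu, hv, hΛ]
    ring
  set S1 : ℝ := (7 / 10000) ^ n with hS1
  set Sl : ℝ := (33 / 50000) ^ n with hSl
  set S2 : ℝ := (29 / 50000) ^ n with hS2
  have hS1p : 0 < S1 := by positivity
  have hSlp : 0 < Sl := by positivity
  have hS2p : 0 < S2 := by positivity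
  have hS21 : S2 ≤ S1 := pow_le_pow_left₀ (by norm_num) (by norm_num) n
  have hbS1 : 0 ≤ (b : ℝ) * S1 := mul_nonneg (by linarith) hS1p.le
  have hbSl : 0 ≤ (b : ℝ) * Sl := mul_nonneg (by linarith) hSlp.le
  have hS2l : S2 ≤ (1 / 62) * Sl := by
    have h1 : (29 / 33 : ℝ) ^ n ≤ (29 / 33) ^ 32 :=
      pow_le_pow_of_le_one (by norm_num) (by norm_num) hn
    have h2 : (29 / 33 : ℝ) ^ 32 ≤ 1 / 62 := by norm_num
    have h3 : S2 = (29 / 33 : ℝ) ^ n * Sl := by
      rw [hS2, hSl, ← mul_pow]; norm_num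
    rw [h3]
    gcongr
    linarith
  have hI1p : 0 ≤ I1 := le_trans (by positivity) hI1
  -- bounds for u I1 + v I2
  have hub : |u * I1 + v * I2| ≤ (22 / 100) * b * S1 := by
    rw [abs_le]
    constructor
    · have h1 : -((43 / 100 * b) * (S1 / 2)) ≤ u * I1 := by
        have : -(43 / 100 * (b : ℝ)) ≤ u := by linarith
        have h2 : (-u) * I1 ≤ (43 / 100 * b) * (S1 / 2) := by
          apply mul_le_mul (by linarith) hI1' hI1p (by positivity)
        linarith
      have h2 : 0 ≤ v * I2 := mul_nonneg hv2 hI2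
      linarith
    · have h1 : u * I1 ≤ 0 := mul_nonpos_of_nonpos_of_nonneg (by linarith) hI1p
      have h2 : v * I2 ≤ (59 / 100 * b) * (S1 / 3) := by
        apply mul_le_mul hv1 (by linarith) hI2 (by positivity)
      linarith
  have hlb : b / 130 * Sl ≤ |u * I1 + v * I2| := by
    have h1 : u * I1 ≤ -(41 / 100) * b * (2 / 75 * Sl) := by
      have : (41 / 100) * b * (2 / 75 * Sl) ≤ (-u) * I1 := by
        apply mul_le_mul (by linarith) hI1 (by positivity) (by linarith)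
      linarith
    have h2 : v * I2 ≤ (59 / 100 * b) * (1 / 62 * Sl / 3) := by
      apply mul_le_mul hv1 (by linarith) hI2 (by positivity)
    have h3 : u * I1 + v * I2 ≤ -(b / 130 * Sl) := by linarith
    rw [abs_of_nonpos (by linarith)]
    linarith
  have hpow : (486 : ℝ) ^ n * 90000 ^ n = 43740000 ^ n := by rw [← mul_pow]; norm_num
  by_cases hZ : ((a - 2 * b) * Z1 + (a - b) * Z2 : ℤ) = 0
  · right
    rw [hZ] at hkey
    have h1 : u * I1 + v * I2 = q * Λ := by
      have : Den n * (u * I1 + v * I2) = Den n * (q * Λ) := by rw [hkey]; push_cast; ring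
      exact mul_left_cancel₀ hD0.ne' this
    rw [h1, abs_mul] at hlb
    have h2 : |(q : ℝ)| * |Λ| ≤ 90000 ^ n * |Λ| := by gcongr
    have h3 : b / 130 * Sl ≤ 90000 ^ n * |Λ| := hlb.trans h2
    rw [← mul_div_assoc, div_le_iff₀ (by positivity)]
    linarith
  · left
    have hZ1 : (1 : ℝ) ≤ |(((a - 2 * b) * Z1 + (a - b) * Z2 : ℤ) : ℝ)| := by
      have : 1 ≤ |((a - 2 * b) * Z1 + (a - b) * Z2 : ℤ)| := Int.one_le_abs hZ
      exact_mod_cast this
    have h1 : |Den n * (u * I1 + v * I2)| ≤ 22 / 100 := by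
      rw [abs_mul, abs_of_pos hD0]
      calc Den n * |u * I1 + v * I2| ≤ 486 ^ n * ((22 / 100) * b * S1) := by gcongr
        _ ≤ 486 ^ n * ((22 / 100) * (29 / 10) ^ n * S1) := by gcongr
        _ = (22 / 100) * (486 * (29 / 10) * (7 / 10000)) ^ n := by
            rw [hS1, mul_pow, mul_pow]; ring
        _ ≤ (22 / 100) * 1 := by
            gcongr
            apply pow_le_one₀ (by norm_num) (by norm_num)
        _ = 22 / 100 := by norm_num
    have h2 : (((a - 2 * b) * Z1 + (a - b) * Z2 : ℤ) : ℝ) =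
        Den n * (u * I1 + v * I2) - Den n * q * Λ := by linarith
    rw [h2] at hZ1
    have h3 : |Den n * (u * I1 + v * I2) - Den n * q * Λ| ≤
        |Den n * (u * I1 + v * I2)| + |Den n * q * Λ| := abs_sub _ _
    have h4 : 78 / 100 ≤ |Den n * q * Λ| := by linarith
    have h5 : |Den n * q * Λ| ≤ 43740000 ^ n * |Λ| := by
      rw [abs_mul, abs_mul, abs_of_pos hD0, ← hpow]
      gcongr
    rw [div_le_iff₀ (by positivity)]
    linarith

/-- **Effective irrationality measure**: `|a log 2 - b log 3| ≥ 1 / (20000 b^17)`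
for all integers `a` and `b ≥ 1`. -/
theorem log_form (a b : ℤ) (hb : 1 ≤ b) :
    1 / (20000 * (b : ℝ) ^ 17) ≤ |a * Real.log 2 - b * Real.log 3| := by
  have hb' : (1 : ℝ) ≤ b := by exact_mod_cast hb
  rcases lt_or_ge b 5750934602875680 with hlt | hge
  · refine le_trans ?_ (cf_bound a b hb hlt)
    have h1 : (b : ℝ) ≤ (b : ℝ) ^ 17 := le_self_pow₀ hb' (by norm_num)
    have h2 : 82 * (b : ℝ) ≤ 20000 * (b : ℝ) ^ 17 := by linarith
    exact one_div_le_one_div_of_le (by positivity) h2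
  by_cases hsmall : |a * Real.log 2 - b * Real.log 3| ≤ 1 / 10
  swap
  · push Not at hsmall
    refine le_trans ?_ hsmall.le
    have h1 : (1 : ℝ) ≤ (b : ℝ) ^ 17 := one_le_pow₀ hb'
    rw [div_le_div_iff₀ (by positivity) (by norm_num)]
    linarith
  -- choose n
  have hex : ∃ n : ℕ, (b : ℝ) ≤ (29 / 10) ^ n := by
    obtain ⟨n, hn⟩ := pow_unbounded_of_one_lt (b : ℝ) (show (1 : ℝ) < 29 / 10 by norm_num)
    exact ⟨n, hn.le⟩
  classical
  obtain ⟨m, hm1, hm2, hm3⟩ : ∃ m : ℕ, 32 ≤ m ∧ (29 / 10 : ℝ) ^ m < b ∧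
      (b : ℝ) ≤ (29 / 10) ^ (m + 1) := by
    have hspec := Nat.find_spec hex
    have hge' : (5750934602875680 : ℝ) ≤ b := by exact_mod_cast hge
    have h33 : 33 ≤ Nat.find hex := by
      by_contra hcon
      push Not at hcon
      have h1 : (29 / 10 : ℝ) ^ (Nat.find hex) ≤ (29 / 10) ^ 32 :=
        pow_le_pow_right₀ (by norm_num) (by omega)
      have h2 : (29 / 10 : ℝ) ^ 32 < 5750934602875680 := by norm_num
      linarith
    obtain ⟨m, hm⟩ : ∃ m, Nat.find hex = m + 1 := ⟨Nat.find hex - 1, by omega⟩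
    refine ⟨m, by omega, ?_, ?_⟩
    · have := Nat.find_min hex (m := m) (by omega)
      push Not at this
      exact this
    · rw [hm] at hspec
      exact hspec
  have hpos : (0 : ℝ) < (29 / 10) ^ m := by positivity
  rcases log_form_step (m + 1) (by omega) a b (by omega) hm3 hsmall with h | h
  · refine le_trans ?_ h
    have h1 : (43740000 : ℝ) ^ m ≤ ((603 / 1000) * (29 / 10) ^ 17) ^ m := by
      apply pow_le_pow_left₀ (by norm_num)
      norm_num
    have h2 : ((603 / 1000 : ℝ) * (29 / 10) ^ 17) ^ m = (603 / 1000) ^ m * ((29 / 10) ^ m) ^ 17 := by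
      rw [mul_pow]
      congr 1
      rw [← pow_mul, ← pow_mul, Nat.mul_comm]
    have h3 : ((29 / 10 : ℝ) ^ m) ^ 17 ≤ (b : ℝ) ^ 17 := by gcongr
    have h4 : (603 / 1000 : ℝ) ^ m ≤ (603 / 1000) ^ 32 :=
      pow_le_pow_of_le_one (by norm_num) (by norm_num) hm1
    have h5 : (43740000 : ℝ) ^ (m + 1) ≤ 5 * (b : ℝ) ^ 17 := by
      calc (43740000 : ℝ) ^ (m + 1) = 43740000 * 43740000 ^ m := by ring
        _ ≤ 43740000 * ((603 / 1000) ^ m * ((29 / 10) ^ m) ^ 17) := by
            rw [← h2]; gcongr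
        _ ≤ 43740000 * ((603 / 1000) ^ 32 * (b : ℝ) ^ 17) := by gcongr
        _ ≤ 5 * (b : ℝ) ^ 17 := by
            have : (43740000 : ℝ) * (603 / 1000) ^ 32 ≤ 5 := by norm_num
            have h6 : (0 : ℝ) ≤ (b : ℝ) ^ 17 := by positivity
            nlinarith
    rw [div_le_div_iff₀ (by positivity) (by positivity)]
    have h6 : (0 : ℝ) ≤ (b : ℝ) ^ 17 := by positivity
    nlinarith
  · refine le_trans ?_ h
    have h1 : (1500000000 / 11 : ℝ) ^ m ≤ ((649 / 1000) * (29 / 10) ^ 18) ^ m := by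
      apply pow_le_pow_left₀ (by norm_num)
      norm_num
    have h2 : ((649 / 1000 : ℝ) * (29 / 10) ^ 18) ^ m = (649 / 1000) ^ m * ((29 / 10) ^ m) ^ 18 := by
      rw [mul_pow]
      congr 1
      rw [← pow_mul, ← pow_mul, Nat.mul_comm]
    have h3 : ((29 / 10 : ℝ) ^ m) ^ 18 ≤ (b : ℝ) ^ 18 := by gcongr
    have h4 : (649 / 1000 : ℝ) ^ m ≤ (649 / 1000) ^ 32 :=
      pow_le_pow_of_le_one (by norm_num) (by norm_num) hm1
    have h5 : 130 * (1500000000 / 11 : ℝ) ^ (m + 1) ≤ 20000 * (b : ℝ) ^ 18 := by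
      calc 130 * (1500000000 / 11 : ℝ) ^ (m + 1)
          = 130 * (1500000000 / 11) * (1500000000 / 11) ^ m := by ring
        _ ≤ 130 * (1500000000 / 11) * ((649 / 1000) ^ m * ((29 / 10) ^ m) ^ 18) := by
            rw [← h2]; gcongr
        _ ≤ 130 * (1500000000 / 11) * ((649 / 1000) ^ 32 * (b : ℝ) ^ 18) := by gcongr
        _ ≤ 20000 * (b : ℝ) ^ 18 := by
            have : 130 * (1500000000 / 11) * (649 / 1000 : ℝ) ^ 32 ≤ 20000 := by norm_num
            have h6 : (0 : ℝ) ≤ (b : ℝ) ^ 18 := by positivity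
            nlinarith
    have h6 : (33 / 50000 : ℝ) ^ (m + 1) / 90000 ^ (m + 1) =
        1 / (1500000000 / 11) ^ (m + 1) := by
      rw [← div_pow, ← one_div_pow]
      norm_num
    rw [h6]
    have hb0 : (0 : ℝ) < b := by linarith
    rw [div_mul_div_comm, mul_one, div_le_div_iff₀ (by positivity) (by positivity)]
    have h7 : (b : ℝ) * (20000 * (b : ℝ) ^ 17) = 20000 * (b : ℝ) ^ 18 := by ring
    rw [h7, one_mul]
    exact h5

end Pool.Agent.Lib.MP_edb5be_nt
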