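import Mathlib
import Pool.Agent.Lib.MP_edb5be_nt.LogForm

/-!
# Basic dynamics of the `3x+1` map on the integers (helper14)
-/

namespace Pool.Agent.Lib.MP_edb5be_nt.Dyn

open Finset

/-- The `3x+1` map. -/
def T (x : ℤ) : ℤ := if x % 2 = 0 then x / 2 else (3 * x + 1) / 2

theorem T_even {x : ℤ} (h : x % 2 = 0) : T x = x / 2 := by simp [T, h]

theorem T_odd {x : ℤ} (h : x % 2 ≠ 0) : T x = (3 * x + 1) / 2 := by simp [T, h]

theorem two_T_even {x : ℤ} (h : x % 2 = 0) : 2 * T x = x := by rw [T_even h]; omega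

theorem two_T_odd {x : ℤ} (h : x % 2 ≠ 0) : 2 * T x = 3 * x + 1 := by rw [T_odd h]; omega

/-- Agreement of parities forces 2-adic closeness. -/
theorem dvd_sub_of_parity (r : ℕ) (y z : ℤ)
    (h : ∀ i < r, T^[i] y % 2 = T^[i] z % 2) : (2 : ℤ) ^ r ∣ y - z := by
  induction r generalizing y z with
  | zero => simp
  | succ r ih =>
    have h0 := h 0 (by omega)
    simp only [Function.iterate_zero, id] at h0
    have h1 : ∀ i < r, T^[i] (T y) % 2 = T^[i] (T z) % 2 := by
      intro i hi
      have := h (i + 1) (by omega)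
      simpa [Function.iterate_succ_apply] using this
    obtain ⟨k, hk⟩ := ih (T y) (T z) h1
    by_cases hy : y % 2 = 0
    · have hz : z % 2 = 0 := by omega
      have e1 := two_T_even hy
      have e2 := two_T_even hz
      exact ⟨k, by rw [pow_succ]; linarith⟩
    · have hz : z % 2 ≠ 0 := by omega
      have e1 := two_T_odd hy
      have e2 := two_T_odd hz
      have h3 : (2 : ℤ) ^ (r + 1) ∣ 3 * (y - z) := ⟨k, by rw [pow_succ]; linarith⟩
      exact (IsCoprime.pow_left (by norm_num)).dvd_of_dvd_mul_left h3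

theorem abs_T_le (y : ℤ) : |(T y : ℝ)| + 1 ≤ 3 / 2 * (|(y : ℝ)| + 1) := by
  by_cases h : y % 2 = 0
  · have e := two_T_even h
    have e' : (y : ℝ) = 2 * T y := by exact_mod_cast e.symm
    rw [e', abs_mul, abs_two]
    have := abs_nonneg (T y : ℝ)
    linarith
  · have e := two_T_odd h
    have e' : (T y : ℝ) = (3 * y + 1) / 2 := by
      have : (2 * T y : ℝ) = 3 * y + 1 := by exact_mod_cast e
      linarith
    rw [e', abs_div, abs_two]
    have h1 : |3 * (y : ℝ) + 1| ≤ 3 * |(y : ℝ)| + 1 := by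
      calc |3 * (y : ℝ) + 1| ≤ |3 * (y : ℝ)| + |(1 : ℝ)| := abs_add_le _ _
        _ = 3 * |(y : ℝ)| + 1 := by rw [abs_mul]; norm_num
    linarith

theorem abs_iterate_le (N : ℕ) (y : ℤ) :
    |(T^[N] y : ℝ)| + 1 ≤ (3 / 2) ^ N * (|(y : ℝ)| + 1) := by
  induction N with
  | zero => simp
  | succ N ih =>
    rw [Function.iterate_succ_apply']
    calc |(T (T^[N] y) : ℝ)| + 1 ≤ 3 / 2 * (|(T^[N] y : ℝ)| + 1) := abs_T_le _
      _ ≤ 3 / 2 * ((3 / 2) ^ N * (|(y : ℝ)| + 1)) := by gcongr
      _ = (3 / 2) ^ (N + 1) * (|(y : ℝ)| + 1) := by ring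

/-- a run of `N` even iterates -/
theorem even_run (N : ℕ) (y : ℤ) (h : ∀ i < N, T^[i] y % 2 = 0) :
    y = 2 ^ N * T^[N] y := by
  induction N generalizing y with
  | zero => simp
  | succ N ih =>
    have h0 := h 0 (by omega)
    simp only [Function.iterate_zero, id] at h0
    have h1 := ih (T y) (by
      intro i hi
      have := h (i + 1) (by omega)
      simpa [Function.iterate_succ_apply] using this)
    have e := two_T_even h0
    rw [Function.iterate_succ_apply, pow_succ]
    linarith

theorem T_eq_zero_iff (x : ℤ) : T x = 0 ↔ x = 0 := by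
  constructor
  · intro h
    by_cases hx : x % 2 = 0
    · have := two_T_even hx; omega
    · have := two_T_odd hx; omega
  · rintro rfl; rfl

theorem iterate_ne_zero {x : ℤ} (hx : x ≠ 0) (i : ℕ) : T^[i] x ≠ 0 := by
  induction i with
  | zero => simpa using hx
  | succ i ih => rw [Function.iterate_succ_apply', Ne, T_eq_zero_iff]; exact ih

/-- number of odd elements among the first `p` iterates -/
def odds (x : ℤ) (p : ℕ) : ℕ := ((range p).filter fun i => T^[i] x % 2 ≠ 0).card

theorem odds_le (x : ℤ) (p : ℕ) : odds x p ≤ p := by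
  refine le_trans (card_filter_le _ _) ?_
  simp

/-- one-step logarithmic identity -/
theorem log_abs_T {x : ℤ} (hx : x ≠ 0) :
    Real.log |(T x : ℝ)| = Real.log |(x : ℝ)| - Real.log 2 +
      (if x % 2 ≠ 0 then Real.log 3 + Real.log |1 + 1 / (3 * (x : ℝ))| else 0) := by
  have hx' : (x : ℝ) ≠ 0 := by exact_mod_cast hx
  by_cases h : x % 2 = 0
  · have e := two_T_even h
    have e' : (T x : ℝ) = x / 2 := by
      have : (2 * T x : ℝ) = x := by exact_mod_cast e
      linarith
    rw [e', abs_div, abs_two, Real.log_div (by simpa using hx') (by norm_num)]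
    simp [h]
  · have e := two_T_odd h
    have hT : T x ≠ 0 := by rw [Ne, T_eq_zero_iff]; exact hx
    have hT' : (T x : ℝ) ≠ 0 := by exact_mod_cast hT
    have e' : (T x : ℝ) = x / 2 * 3 * (1 + 1 / (3 * (x : ℝ))) := by
      have : (2 * T x : ℝ) = 3 * x + 1 := by exact_mod_cast e
      field_simp
      linarith
    have h1 : (1 + 1 / (3 * (x : ℝ))) ≠ 0 := by
      intro h0
      rw [h0] at e'
      simp at e'
      exact hT' (by exact_mod_cast e')
    rw [e', abs_mul, abs_mul, abs_div, abs_two, Real.log_mul (by positivity) (by positivity),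
      Real.log_mul (by positivity) (by positivity), Real.log_div (by positivity) (by norm_num)]
    simp only [h, ne_eq, not_false_eq_true, if_true]
    rw [show |(3 : ℝ)| = 3 by norm_num]
    ring

/-- The logarithmic identity along `p` steps. -/
theorem log_abs_iterate {x : ℤ} (hx : x ≠ 0) (p : ℕ) :
    Real.log |(T^[p] x : ℝ)| = Real.log |(x : ℝ)| - p * Real.log 2 + odds x p * Real.log 3 +
      ∑ i ∈ (range p).filter (fun i => T^[i] x % 2 ≠ 0),
        Real.log |1 + 1 / (3 * (T^[i] x : ℝ))| := by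
  induction p with
  | zero => simp [odds]
  | succ p ih =>
    rw [Function.iterate_succ_apply', log_abs_T (iterate_ne_zero hx p), ih]
    unfold odds
    rw [range_add_one, filter_insert]
    by_cases h : T^[p] x % 2 = 0
    · simp only [h, ne_eq, not_true_eq_false, if_false]
      push_cast
      ring
    · have h' : T^[p] x % 2 ≠ 0 := h
      rw [if_pos h', if_pos h', sum_insert (by simp), card_insert_of_notMem (by simp)]
      push_cast
      ring

theorem abs_log_one_add_le {x : ℤ} (hx : x ≠ 0) :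
    abs (Real.log |1 + 1 / (3 * (x : ℝ))|) ≤ 1 / (2 * |(x : ℝ)|) := by
  rcases lt_or_gt_of_ne hx with h | h
  · have h1 : (x : ℝ) ≤ -1 := by exact_mod_cast (by omega : x ≤ -1)
    have habs : |(x : ℝ)| = -x := abs_of_neg (by linarith)
    set y : ℝ := -x with hy
    have hy1 : 1 ≤ y := by linarith
    have e : 1 + 1 / (3 * (x : ℝ)) = 1 - 1 / (3 * y) := by
      rw [hy]; field_simp; ring
    have h3 : 1 / (3 * y) ≤ 1 / 3 := by
      rw [div_le_div_iff₀ (by positivity) (by norm_num)]; linarith
    have h4 : 0 < 1 / (3 * y) := by positivity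
    rw [e, habs, Real.log_abs, abs_of_nonpos (Real.log_nonpos (by linarith) (by linarith))]
    have h5 := Real.one_sub_inv_le_log_of_pos (x := 1 - 1 / (3 * y)) (by linarith)
    have h6 : 1 - (1 - 1 / (3 * y))⁻¹ = - (1 / (3 * y - 1)) := by
      have : 3 * y - 1 ≠ 0 := by linarith
      have : y ≠ 0 := by linarith
      have h7 : 1 - 1 / (3 * y) = (3 * y - 1) / (3 * y) := by field_simp
      rw [h7, inv_div]
      field_simp
      ring
    have h8 : 1 / (3 * y - 1) ≤ 1 / (2 * y) := by
      rw [div_le_div_iff₀ (by linarith) (by linarith)]; linarith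
    linarith
  · have h1 : (1 : ℝ) ≤ x := by exact_mod_cast h
    have habs : |(x : ℝ)| = x := abs_of_pos (by linarith)
    have h4 : 0 < 1 / (3 * (x : ℝ)) := by positivity
    rw [habs, Real.log_abs, abs_of_nonneg (Real.log_nonneg (by linarith))]
    have h5 := Real.log_le_sub_one_of_pos (x := 1 + 1 / (3 * (x : ℝ))) (by linarith)
    have h8 : 1 / (3 * (x : ℝ)) ≤ 1 / (2 * x) := by
      rw [div_le_div_iff₀ (by linarith) (by linarith)]; linarith
    linarith

/-- For a cycle of length `p` with `n` odd elements, all of absolute value at least `X`: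
`|p log 2 - n log 3| ≤ n / (2 X)`. -/
theorem abs_lambda_le {x : ℤ} (hx : x ≠ 0) (p : ℕ) (hp : T^[p] x = x) (X : ℝ) (hX : 0 < X)
    (hmin : ∀ i < p, X ≤ |(T^[i] x : ℝ)|) :
    |(p : ℝ) * Real.log 2 - odds x p * Real.log 3| ≤ odds x p / (2 * X) := by
  have h := log_abs_iterate hx p
  rw [hp] at h
  have h1 : (p : ℝ) * Real.log 2 - odds x p * Real.log 3 =
      ∑ i ∈ (range p).filter (fun i => T^[i] x % 2 ≠ 0),
        Real.log |1 + 1 / (3 * (T^[i] x : ℝ))| := by linarith
  rw [h1]
  refine le_trans (abs_sum_le_sum_abs _ _) ?_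
  calc ∑ i ∈ (range p).filter (fun i => T^[i] x % 2 ≠ 0),
        abs (Real.log |1 + 1 / (3 * (T^[i] x : ℝ))|)
      ≤ ∑ i ∈ (range p).filter (fun i => T^[i] x % 2 ≠ 0), 1 / (2 * X) := by
        apply sum_le_sum
        intro i hi
        rw [mem_filter, mem_range] at hi
        refine (abs_log_one_add_le (iterate_ne_zero hx i)).trans ?_
        have := hmin i hi.1
        gcongr
    _ = odds x p / (2 * X) := by
        rw [sum_const, odds, nsmul_eq_mul]
        ring

theorem odds_pos {x : ℤ} (hx : x ≠ 0) (p : ℕ) (hp0 : 0 < p) (hp : T^[p] x = x) :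
    1 ≤ odds x p := by
  by_contra hcon
  have h0 : odds x p = 0 := by omega
  unfold odds at h0
  rw [card_eq_zero, filter_eq_empty_iff] at h0
  have h1 : ∀ i < p, T^[i] x % 2 = 0 := by
    intro i hi
    have := h0 (mem_range.mpr hi)
    simpa using this
  have h2 := even_run p x h1
  rw [hp] at h2
  have h3 : (2 : ℤ) ^ p = 1 := by
    have : x * ((2 : ℤ) ^ p - 1) = 0 := by linarith
    rcases mul_eq_zero.mp this with h | h
    · exact absurd h hx
    · linarith
  have h4 : (2 : ℤ) ^ 1 ≤ 2 ^ p := pow_le_pow_right₀ (by norm_num) hp0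
  omega

/-- Every cycle other than `{0}` has an element of absolute value at most `10000 p^18`. -/
theorem min_le {x : ℤ} (hx : x ≠ 0) (p : ℕ) (hp0 : 0 < p) (hp : T^[p] x = x) (X : ℝ) (hX : 0 < X)
    (hmin : ∀ i < p, X ≤ |(T^[i] x : ℝ)|) : X ≤ 10000 * (p : ℝ) ^ 18 := by
  have h1 := abs_lambda_le hx p hp X hX hmin
  have hn := odds_pos hx p hp0 hp
  have h2 := log_form p (odds x p) (by exact_mod_cast hn)
  have hn' : (1 : ℝ) ≤ odds x p := by exact_mod_cast hn
  have hnp : (odds x p : ℝ) ≤ p := by exact_mod_cast odds_le x p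
  have h3 : 1 / (20000 * (odds x p : ℝ) ^ 17) ≤ odds x p / (2 * X) := by
    refine le_trans ?_ h1
    push_cast at h2
    exact h2
  rw [div_le_div_iff₀ (by positivity) (by positivity)] at h3
  have h4 : X ≤ 10000 * (odds x p : ℝ) ^ 18 := by
    have : (odds x p : ℝ) * (20000 * (odds x p : ℝ) ^ 17) = 20000 * (odds x p : ℝ) ^ 18 := by ring
    linarith
  refine h4.trans ?_
  gcongr

end Pool.Agent.Lib.MP_edb5be_nt.Dyn
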