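import Mathlib
import Pool.Agent.Lib.MP_edb5be_nt.Dyn
import Pool.Agent.Lib.MP_edb5be_nt.Verify.Plus
import Pool.Agent.Lib.MP_edb5be_nt.Verify.Minus

/-!
# Cycles of the `3x+1` map on `ℤ` with an element of absolute value below `16777216` (helper14)
-/

namespace Pool.Agent.Lib.MP_edb5be_nt.Dyn

open Function

/-- the known periodic points -/
def known : Finset ℤ :=
  {0, 1, 2, -1, -5, -7, -10, -17, -25, -37, -55, -82, -41, -61, -91, -136, -68, -34}

theorem T_nat (y : ℕ) : T (y : ℤ) = ((Verify.S 0 y : ℕ) : ℤ) := by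
  unfold T Verify.S
  by_cases h : y % 2 = 0
  · have h' : (y : ℤ) % 2 = 0 := by omega
    rw [if_pos h, if_pos h']
    omega
  · have h' : ¬ (y : ℤ) % 2 = 0 := by omega
    rw [if_neg h, if_neg h']
    omega

theorem T_neg_nat (y : ℕ) : T (-(y : ℤ)) = -((Verify.S 1 y : ℕ) : ℤ) := by
  unfold T Verify.S
  by_cases h : y % 2 = 0
  · have h' : (-(y : ℤ)) % 2 = 0 := by omega
    rw [if_pos h, if_pos h']
    omega
  · have h' : ¬ (-(y : ℤ)) % 2 = 0 := by omega
    rw [if_neg h, if_neg h']
    omega

theorem iterate_nat (i y : ℕ) : T^[i] (y : ℤ) = (((Verify.S 0)^[i] y : ℕ) : ℤ) := by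
  induction i with
  | zero => rfl
  | succ i ih => rw [iterate_succ_apply', iterate_succ_apply', ih, T_nat]

theorem iterate_neg_nat (i y : ℕ) : T^[i] (-(y : ℤ)) = -(((Verify.S 1)^[i] y : ℕ) : ℤ) := by
  induction i with
  | zero => rfl
  | succ i ih => rw [iterate_succ_apply', iterate_succ_apply', ih, T_neg_nat]

theorem not_three_T {x : ℤ} (h : x % 3 ≠ 0) : T x % 3 ≠ 0 := by
  by_cases hx : x % 2 = 0
  · have := two_T_even hx; omega
  · have := two_T_odd hx; omega

theorem not_three_iterate {x : ℤ} (h : x % 3 ≠ 0) (i : ℕ) : T^[i] x % 3 ≠ 0 := by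
  induction i with
  | zero => simpa using h
  | succ i ih => rw [iterate_succ_apply']; exact not_three_T ih

/-- Chamberland: nonzero periodic points are not divisible by `3`. -/
theorem periodic_not_three {x : ℤ} (hx : x ≠ 0) {p : ℕ} (hp0 : 0 < p) (hp : T^[p] x = x) :
    x % 3 ≠ 0 := by
  intro h3
  -- an odd element somewhere
  have hodd := odds_pos hx p hp0 hp
  unfold odds at hodd
  rw [Nat.one_le_iff_ne_zero, Ne, Finset.card_eq_zero] at hodd
  obtain ⟨i, hi⟩ := Finset.nonempty_iff_ne_empty.mpr hodd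
  rw [Finset.mem_filter, Finset.mem_range] at hi
  obtain ⟨hip, hio⟩ := hi
  have e := two_T_odd hio
  have h1 : T^[i + 1] x % 3 ≠ 0 := by
    rw [iterate_succ_apply']
    omega
  have h2 := not_three_iterate h1 (p - (i + 1))
  rw [← iterate_add_apply, show p - (i + 1) + (i + 1) = p by omega, hp] at h2
  exact h2 h3

theorem iterate_mem_known {z : ℤ} (hz : z ∈ known) (i : ℕ) : T^[i] z ∈ known := by
  induction i with
  | zero => simpa using hz
  | succ i ih =>
    rw [iterate_succ_apply']
    have h : ∀ w ∈ known, T w ∈ known := by decide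
    exact h _ ih

/-- the known cycle representatives of `S 0` and `S 1` -/
def base (e : ℕ) : List ℕ := if e = 0 then [1] else [1, 5, 17]

theorem base_period : ∀ e < 2, ∀ z ∈ base e, (Verify.S e)^[66] z = z := by decide +kernel

theorem small_S : ∀ e < 2, ∀ y < 18, y % 2 = 1 ∧ y ∉ base e →
    ∃ t < 16, (Verify.S e)^[t] y < y := by decide +kernel

theorem S_pos {e y : ℕ} (he : e < 2) (h : 0 < y) : 0 < Verify.S e y := by
  unfold Verify.S
  split_ifs <;> omega

theorem S_not_three {e y : ℕ} (he : e < 2) (h : y % 3 ≠ 0) (h0 : 0 < y) :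
    Verify.S e y % 3 ≠ 0 := by
  unfold Verify.S
  interval_cases e <;> split_ifs <;> omega

theorem S_iter {e y : ℕ} (he : e < 2) (h : y % 3 ≠ 0) (h0 : 0 < y) (t : ℕ) :
    (Verify.S e)^[t] y % 3 ≠ 0 ∧ 0 < (Verify.S e)^[t] y := by
  induction t with
  | zero => exact ⟨h, h0⟩
  | succ t ih =>
    rw [iterate_succ_apply']
    exact ⟨S_not_three he ih.1 ih.2, S_pos he ih.2⟩

/-- reaching the base set -/
def Reach (e y : ℕ) : Prop := ∃ i, (Verify.S e)^[i] y ∈ base e

theorem Reach.of_iter {e y : ℕ} {t : ℕ} (h : Reach e ((Verify.S e)^[t] y)) : Reach e y := by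
  obtain ⟨i, hi⟩ := h
  exact ⟨i + t, by rw [iterate_add_apply]; exact hi⟩

theorem Reach.iter {e w : ℕ} (he : e < 2) {j : ℕ} (hj : j ≤ 66) (h : Reach e w) :
    Reach e ((Verify.S e)^[j] w) := by
  obtain ⟨i, hi⟩ := h
  refine ⟨i + (66 - j), ?_⟩
  rw [← iterate_add_apply, show i + (66 - j) + j = 66 + i by omega, iterate_add_apply,
    base_period e he _ hi]
  exact hi

theorem mk0_spec : ∀ r < 27, r % 3 ≠ 0 → (Verify.mk0 >>> r) &&& 1 ≠ 0 ∨ r % 9 = 2 ∨ r % 9 = 8 ∨
    r = 13 ∨ r = 22 := by decide +kernel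

theorem mk1_spec : ∀ r < 27, r % 3 ≠ 0 → (Verify.mk1 >>> r) &&& 1 ≠ 0 ∨ r % 9 = 1 ∨ r % 9 = 7 ∨
    r = 5 ∨ r = 14 := by decide +kernel

theorem reach_all (e : ℕ) (he : e < 2) (y : ℕ) (h0 : 0 < y) (hy : y < 16777216) (h3 : y % 3 ≠ 0) :
    Reach e y := by
  induction y using Nat.strong_induction_on with
  | _ y ih =>
  have hdown : ∀ t, (Verify.S e)^[t] y < y → Reach e y := by
    intro t ht
    obtain ⟨h1, h2⟩ := S_iter he h3 h0 t
    exact (ih _ ht h2 (by omega) h1).of_iter
  rcases Nat.mod_two_eq_zero_or_one y with hev | hodd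
  · apply hdown 1
    rw [iterate_one, Verify.S_even hev]
    omega
  rcases Nat.lt_or_ge y 18 with hlt | hge
  · by_cases hb : y ∈ base e
    · exact ⟨0, hb⟩
    · obtain ⟨t, -, ht⟩ := small_S e he y hlt ⟨hodd, hb⟩
      exact hdown t ht
  interval_cases e
  · rcases mk0_spec (y % 27) (Nat.mod_lt _ (by norm_num)) (by omega) with h | h | h | h | h
    · obtain ⟨t, ht⟩ := Verify.drop0 y (by omega) hy hodd h
      exact hdown t ht
    · have := (ih ((2 * y - 1) / 3) (by omega) (by omega) (by omega) (by omega)).iter (j := 1)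
        (by norm_num) (by norm_num)
      rw [iterate_one, Verify.S_odd (by omega), show (3 * ((2 * y - 1) / 3) + 1) / 2 - 0 = y by
        omega] at this
      exact this
    · have := (ih ((2 * y - 1) / 3) (by omega) (by omega) (by omega) (by omega)).iter (j := 1)
        (by norm_num) (by norm_num)
      rw [iterate_one, Verify.S_odd (by omega), show (3 * ((2 * y - 1) / 3) + 1) / 2 - 0 = y by
        omega] at this
      exact this
    all_goals
      obtain ⟨k, hk⟩ : ∃ k, y = 9 * k + 4 := ⟨y / 9, by omega⟩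
      have := (ih (8 * k + 3) (by omega) (by omega) (by omega) (by omega)).iter (j := 3)
        (by norm_num) (by norm_num)
      have e1 : Verify.S 0 (8 * k + 3) = 12 * k + 5 := by rw [Verify.S_odd (by omega)]; omega
      have e2 : Verify.S 0 (12 * k + 5) = 18 * k + 8 := by rw [Verify.S_odd (by omega)]; omega
      have e3 : Verify.S 0 (18 * k + 8) = y := by rw [Verify.S_even (by omega)]; omega
      rw [show (Verify.S 0)^[3] (8 * k + 3) = y by
        rw [iterate_succ_apply, iterate_succ_apply, iterate_one, e1, e2, e3]] at this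
      exact this
  · rcases mk1_spec (y % 27) (Nat.mod_lt _ (by norm_num)) (by omega) with h | h | h | h | h
    · obtain ⟨t, ht⟩ := Verify.drop1 y (by omega) hy hodd h
      exact hdown t ht
    · have := (ih ((2 * y + 1) / 3) (by omega) (by omega) (by omega) (by omega)).iter (j := 1)
        (by norm_num) (by norm_num)
      rw [iterate_one, Verify.S_odd (by omega), show (3 * ((2 * y + 1) / 3) + 1) / 2 - 1 = y by
        omega] at this
      exact this
    · have := (ih ((2 * y + 1) / 3) (by omega) (by omega) (by omega) (by omega)).iter (j := 1)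
        (by norm_num) (by norm_num)
      rw [iterate_one, Verify.S_odd (by omega), show (3 * ((2 * y + 1) / 3) + 1) / 2 - 1 = y by
        omega] at this
      exact this
    all_goals
      obtain ⟨k, hk⟩ : ∃ k, y = 9 * k + 5 := ⟨y / 9, by omega⟩
      have := (ih (8 * k + 5) (by omega) (by omega) (by omega) (by omega)).iter (j := 3)
        (by norm_num) (by norm_num)
      have e1 : Verify.S 1 (8 * k + 5) = 12 * k + 7 := by rw [Verify.S_odd (by omega)]; omega
      have e2 : Verify.S 1 (12 * k + 7) = 18 * k + 10 := by rw [Verify.S_odd (by omega)]; omega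
      have e3 : Verify.S 1 (18 * k + 10) = y := by rw [Verify.S_even (by omega)]; omega
      rw [show (Verify.S 1)^[3] (8 * k + 5) = y by
        rw [iterate_succ_apply, iterate_succ_apply, iterate_one, e1, e2, e3]] at this
      exact this

theorem base_known : (∀ z ∈ base 0, (z : ℤ) ∈ known) ∧ (∀ z ∈ base 1, -(z : ℤ) ∈ known) := by
  decide

/-- A nonzero cycle with an element of absolute value below `16777216` is known. -/
theorem mem_known_of_lt {x : ℤ} (hx : x ≠ 0) {p : ℕ} (hp0 : 0 < p) (hp : T^[p] x = x)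
    {τ : ℕ} (hτ : τ ≤ p) (hsmall : |T^[τ] x| < 16777216) : x ∈ known := by
  set z := T^[τ] x with hz
  have hz0 : z ≠ 0 := iterate_ne_zero hx τ
  have hzp : T^[p] z = z := by
    rw [hz, ← iterate_add_apply, Nat.add_comm, iterate_add_apply, hp]
  have hz3 : z % 3 ≠ 0 := periodic_not_three hz0 hp0 hzp
  have hx' : x = T^[p - τ] z := by
    rw [hz, ← iterate_add_apply, show p - τ + τ = p by omega, hp]
  have hback : ∀ i, T^[i] z ∈ known → x ∈ known := by
    intro i hi
    have hpi : T^[p * i] z = z := by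
      have := Function.IsPeriodicPt.mul_const (show IsPeriodicPt T p z from hzp) i
      exact this
    have h1 : z = T^[p * i - i] (T^[i] z) := by
      rw [← iterate_add_apply, Nat.sub_add_cancel (Nat.le_mul_of_pos_left i hp0), hpi]
    rw [hx', h1]
    exact iterate_mem_known (iterate_mem_known hi _) _
  rcases lt_or_gt_of_ne hz0 with hneg | hpos
  · obtain ⟨y, hy⟩ : ∃ y : ℕ, z = -(y : ℤ) := ⟨z.natAbs, by omega⟩
    have habs : |z| = y := by rw [hy, abs_neg]; exact abs_of_nonneg (by positivity)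
    rw [habs] at hsmall
    obtain ⟨i, hi⟩ := reach_all 1 (by norm_num) y (by omega) (by exact_mod_cast hsmall) (by omega)
    apply hback i
    rw [hy, iterate_neg_nat]
    exact base_known.2 _ hi
  · obtain ⟨y, hy⟩ : ∃ y : ℕ, z = (y : ℤ) := ⟨z.natAbs, by omega⟩
    have habs : |z| = y := by rw [hy]; exact abs_of_nonneg (by positivity)
    rw [habs] at hsmall
    obtain ⟨i, hi⟩ := reach_all 0 (by norm_num) y (by omega) (by exact_mod_cast hsmall) (by omega)
    apply hback i
    rw [hy, iterate_nat]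
    exact base_known.1 _ hi

/-- A nonzero cycle with smallest absolute value below `2^24` is known. -/
theorem mem_known_of_small {x : ℤ} (hx : x ≠ 0) {p : ℕ} (hp0 : 0 < p) (hp : T^[p] x = x)
    {τ : ℕ} (hτ : τ ≤ p) (_hmin : ∀ i, |T^[τ] x| ≤ |T^[i] x|) (hsmall : |T^[τ] x| < 2 ^ 24) :
    x ∈ known := mem_known_of_lt hx hp0 hp hτ (by norm_num at hsmall; exact hsmall)

end Pool.Agent.Lib.MP_edb5be_nt.Dyn
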